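import Pool.Agent.T6.H20.BU.Defs

/-! Module EIG: a non-homothetic eigenmap of degree two. -/

set_option autoImplicit false

namespace Pool.Agent.T6.H20.BU

open Finset

namespace EigAux

variable {n : ℕ}

/-- the bilinear form of a matrix -/
def Bf (S : Fin n → Fin n → ℝ) (v x : Fin n → ℝ) : ℝ := ∑ a, ∑ b, S a b * v a * x b

/-- the symmetric elementary matrices -/
def El (i j a b : Fin n) : ℝ :=
  (if a = i then 1 else 0) * (if b = j then 1 else 0) +
    (if a = j then 1 else 0) * (if b = i then 1 else 0)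

/-- the identity matrix -/
def Id' (a b : Fin n) : ℝ := if a = b then 1 else 0

theorem El_symm (i j a b : Fin n) : El i j a b = El i j b a := by
  unfold El
  ring

theorem Id_symm (a b : Fin n) : Id' a b = Id' b a := by
  unfold Id'
  simp only [eq_comm]

/-- `v_i x_j + v_j x_i` -/
def p (v x : Fin n → ℝ) (i j : Fin n) : ℝ := v i * x j + v j * x i

theorem Bf_El (i j : Fin n) (v x : Fin n → ℝ) : Bf (El i j) v x = p v x i j := by
  unfold Bf El p
  simp only [add_mul, Finset.sum_add_distrib, mul_ite, ite_mul, mul_one, mul_zero, one_mul,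
    zero_mul, Finset.sum_ite_eq', Finset.mem_univ, if_true]

theorem Bf_Id (v x : Fin n → ℝ) : Bf Id' v x = ∑ a, v a * x a := by
  unfold Bf Id'
  simp only [ite_mul, one_mul, zero_mul, Finset.sum_ite_eq, Finset.mem_univ, if_true]

theorem Bf_lin (s t : ℝ) (A B : Fin n → Fin n → ℝ) (v x : Fin n → ℝ) :
    Bf (fun a b => s * A a b + t * B a b) v x = s * Bf A v x + t * Bf B v x := by
  unfold Bf
  rw [Finset.mul_sum, Finset.mul_sum, ← Finset.sum_add_distrib]
  refine Finset.sum_congr rfl fun a _ => ?_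
  rw [Finset.mul_sum, Finset.mul_sum, ← Finset.sum_add_distrib]
  refine Finset.sum_congr rfl fun b _ => ?_
  ring

section

variable (i0 i1 i2 i3 : Fin n)

/-- the family of matrices, without the factor `α` -/
noncomputable def SS (c : Fin n × Fin n) : Fin n → Fin n → ℝ :=
  if c = (i0, i1) ∨ c = (i1, i0) then fun a b => 1 / 2 * El i0 i1 a b + 1 / 2 * El i2 i3 a b
  else if c = (i0, i2) ∨ c = (i2, i0) then
    fun a b => 1 / 2 * El i0 i2 a b + (-1 / 2) * El i1 i3 a b
  else if c = (i2, i3) ∨ c = (i3, i2) ∨ c = (i1, i3) ∨ c = (i3, i1) then fun _ _ => 0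
  else fun a b => 1 / 2 * El c.1 c.2 a b + (if c.1 = c.2 then -1 / (n : ℝ) else 0) * Id' a b

/-- twice the values of the bilinear forms -/
noncomputable def val (v x : Fin n → ℝ) (c : Fin n × Fin n) : ℝ :=
  if c = (i0, i1) ∨ c = (i1, i0) then p v x i0 i1 + p v x i2 i3
  else if c = (i0, i2) ∨ c = (i2, i0) then p v x i0 i2 - p v x i1 i3
  else if c = (i2, i3) ∨ c = (i3, i2) ∨ c = (i1, i3) ∨ c = (i3, i1) then 0
  else p v x c.1 c.2 + (if c.1 = c.2 then -2 / (n : ℝ) else 0) * ∑ a, v a * x a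

theorem Bf_SS (v x : Fin n → ℝ) (c : Fin n × Fin n) :
    2 * Bf (SS i0 i1 i2 i3 c) v x = val i0 i1 i2 i3 v x c := by
  unfold SS val
  split_ifs
  · rw [Bf_lin, Bf_El, Bf_El]; ring
  · rw [Bf_lin, Bf_El, Bf_El]; ring
  · unfold Bf
    simp
  · rw [Bf_lin, Bf_El, Bf_Id]; ring
  · rw [Bf_lin, Bf_El, Bf_Id]; ring

theorem SS_symm (c : Fin n × Fin n) (a b : Fin n) :
    SS i0 i1 i2 i3 c a b = SS i0 i1 i2 i3 c b a := by
  unfold SS
  split_ifs <;> simp only [El_symm _ _ a b, Id_symm a b]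

/-- the eight changed pairs -/
def TT : Finset (Fin n × Fin n) :=
  {(i0, i1), (i1, i0), (i2, i3), (i3, i2), (i0, i2), (i2, i0), (i1, i3), (i3, i1)}

variable {i0 i1 i2 i3}

theorem master (h01 : i0 ≠ i1) (h02 : i0 ≠ i2) (h03 : i0 ≠ i3) (h12 : i1 ≠ i2) (h13 : i1 ≠ i3)
    (h23 : i2 ≠ i3) (hn : (n : ℝ) ≠ 0) (v x : Fin n → ℝ) :
    ∑ c, val i0 i1 i2 i3 v x c ^ 2 =
      2 * (∑ a, v a ^ 2) * (∑ a, x a ^ 2) + (2 - 4 / (n : ℝ)) * (∑ a, v a * x a) ^ 2 +
        4 * (p v x i0 i1 * p v x i2 i3 - p v x i0 i2 * p v x i1 i3) := by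
  set s := ∑ a, v a * x a with hs
  set w : Fin n × Fin n → ℝ := fun c =>
    p v x c.1 c.2 + (if c.1 = c.2 then -2 / (n : ℝ) else 0) * s with hw
  have h1 : ∑ c, (val i0 i1 i2 i3 v x c ^ 2 - w c ^ 2) =
      4 * (p v x i0 i1 * p v x i2 i3 - p v x i0 i2 * p v x i1 i3) := by
    have hp : ∀ i j, p v x j i = p v x i j := by
      intro i j
      unfold p
      ring
    rw [← Finset.sum_subset (Finset.subset_univ (TT i0 i1 i2 i3))]
    · unfold TT
      rw [Finset.sum_insert, Finset.sum_insert, Finset.sum_insert, Finset.sum_insert,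
        Finset.sum_insert, Finset.sum_insert, Finset.sum_insert, Finset.sum_singleton]
      · simp only [hw, val, Prod.mk.injEq, h01, h02, h03, h12, h13, h23, h01.symm, h02.symm,
          h03.symm, h12.symm, h13.symm, h23.symm, if_false, if_true, and_false, false_and, and_self,
          or_false, false_or, true_or, or_true, and_true, true_and, zero_mul, add_zero]
        rw [hp i0 i1, hp i2 i3, hp i0 i2, hp i1 i3]
        ring
      all_goals
        simp only [Finset.mem_insert, Finset.mem_singleton, Prod.mk.injEq, h01, h02, h03, h12, h13,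
          h23, h01.symm, h02.symm, h03.symm, h12.symm, h13.symm, h23.symm, and_false, false_and,
          or_false, false_or, and_self, not_false_iff]
    · intro c _ hc
      simp only [TT, Finset.mem_insert, Finset.mem_singleton, not_or] at hc
      simp only [hw, val, hc, if_false, or_false, false_or, or_self]
      ring
  have h2 : ∑ c, w c ^ 2 = 2 * (∑ a, v a ^ 2) * (∑ a, x a ^ 2) + (2 - 4 / (n : ℝ)) * s ^ 2 := by
    have h3 : ∀ c, w c ^ 2 = v c.1 ^ 2 * x c.2 ^ 2 + x c.1 ^ 2 * v c.2 ^ 2 +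
        2 * (v c.1 * x c.1) * (v c.2 * x c.2) + (if c.1 = c.2 then
          -8 / (n : ℝ) * s * (v c.1 * x c.1) + 4 / (n : ℝ) ^ 2 * s ^ 2 else 0) := by
      intro c
      simp only [hw, p]
      split_ifs with h
      · rw [h]; ring
      · ring
    rw [Finset.sum_congr rfl fun c _ => h3 c, Finset.sum_add_distrib, Finset.sum_add_distrib,
      Finset.sum_add_distrib, ← Finset.univ_product_univ, Finset.sum_product, Finset.sum_product,
      Finset.sum_product, Finset.sum_product]
    simp only [Finset.sum_ite_eq, Finset.mem_univ, if_true, ← Finset.mul_sum, ← Finset.sum_mul,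
      Finset.sum_add_distrib, Finset.sum_const, Finset.card_univ, Fintype.card_fin, nsmul_eq_mul]
    rw [← hs]
    field_simp
    ring
  rw [← h1, Finset.sum_sub_distrib, h2]
  ring

theorem El_tr (i j : Fin n) : ∑ a, El i j a a = if i = j then 2 else 0 := by
  unfold El
  rw [Finset.sum_add_distrib]
  simp only [mul_ite, mul_one, mul_zero, ite_mul, one_mul, zero_mul, Finset.sum_ite_eq',
    Finset.mem_univ, if_true]
  by_cases h : i = j
  · subst h
    simp
    norm_num
  · simp [h, Ne.symm h]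

theorem SS_tr (h01 : i0 ≠ i1) (h02 : i0 ≠ i2) (h13 : i1 ≠ i3)
    (h23 : i2 ≠ i3) (hn : (n : ℝ) ≠ 0) (c : Fin n × Fin n) :
    ∑ a, SS i0 i1 i2 i3 c a a = 0 := by
  unfold SS
  split_ifs
  · rw [Finset.sum_add_distrib, ← Finset.mul_sum, ← Finset.mul_sum, El_tr, El_tr, if_neg h01,
      if_neg h23]
    ring
  · rw [Finset.sum_add_distrib, ← Finset.mul_sum, ← Finset.mul_sum, El_tr, El_tr, if_neg h02,
      if_neg h13]
    ring
  · simp
  · rename_i h
    rw [Finset.sum_add_distrib, ← Finset.mul_sum, ← Finset.mul_sum, El_tr, if_pos h]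
    unfold Id'
    simp only [if_true, Finset.sum_const, Finset.card_univ, Fintype.card_fin, nsmul_eq_mul]
    field_simp
    ring
  · rename_i h
    rw [Finset.sum_add_distrib, ← Finset.mul_sum, ← Finset.mul_sum, El_tr, if_neg h]
    ring

theorem single_p (h02 : i0 ≠ i2) (h03 : i0 ≠ i3) (h12 : i1 ≠ i2) (h13 : i1 ≠ i3) (a : Fin n)
    (x : Fin n → ℝ) : p (Pi.single a 1) x i0 i1 * p (Pi.single a 1) x i2 i3 = 0 := by
  unfold p
  simp only [Pi.single_apply]
  by_cases h0 : i0 = a
  · subst h0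
    simp [h02.symm, h03.symm]
  · by_cases h1 : i1 = a
    · subst h1
      simp [h12.symm, h13.symm]
    · simp [h0, h1]

end

theorem nsq (x : E n) : ‖x‖ ^ 2 = ∑ a, x a ^ 2 := by
  rw [EuclideanSpace.norm_sq_eq]
  refine Finset.sum_congr rfl fun a _ => ?_
  rw [Real.norm_eq_abs, sq_abs]

theorem Bf_smul (t : ℝ) (A : Fin n → Fin n → ℝ) (v x : Fin n → ℝ) :
    Bf (fun a b => t * A a b) v x = t * Bf A v x := by
  unfold Bf
  rw [Finset.mul_sum]
  refine Finset.sum_congr rfl fun a _ => ?_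
  rw [Finset.mul_sum]
  refine Finset.sum_congr rfl fun b _ => ?_
  ring

theorem qf_eq (A : Fin n → Fin n → ℝ) (x : E n) : qf A x = Bf A x x := rfl

theorem mv_eq (A : Fin n → Fin n → ℝ) (x : E n) (a : Fin n) :
    mv A x a = Bf A (Pi.single a 1) x := by
  have h : ∑ c, ∑ b, A c b * (Pi.single a (1 : ℝ) : Fin n → ℝ) c * x b = ∑ b, A a b * x b := by
    rw [Finset.sum_eq_single a]
    · refine Finset.sum_congr rfl fun b _ => ?_
      rw [Pi.single_eq_same, mul_one]
    · intro b _ hb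
      refine Finset.sum_eq_zero fun c _ => ?_
      rw [Pi.single_eq_of_ne hb]
      ring
    · intro h
      exact (h (Finset.mem_univ _)).elim
  exact h.symm

theorem inner_mv (A : Fin n → Fin n → ℝ) (v x : E n) : inner ℝ v (mv A x) = Bf A v x := by
  rw [PiLp.inner_apply]
  unfold mv Bf
  refine Finset.sum_congr rfl fun a _ => ?_
  simp only [RCLike.inner_apply, conj_trivial]
  rw [Finset.sum_mul]
  refine Finset.sum_congr rfl fun b _ => ?_
  ring

end EigAux

open EigAux in
/-- Module EIG. -/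
theorem eig : StmtEig := by
  intro n hn
  have hnr : (4 : ℝ) ≤ n := by exact_mod_cast hn
  have hn0 : (n : ℝ) ≠ 0 := by positivity
  have hn1 : (n : ℝ) - 1 ≠ 0 := by linarith
  set i0 : Fin n := ⟨0, by omega⟩ with e0
  set i1 : Fin n := ⟨1, by omega⟩ with e1
  set i2 : Fin n := ⟨2, by omega⟩ with e2
  set i3 : Fin n := ⟨3, by omega⟩ with e3
  have h01 : i0 ≠ i1 := by simp [e0, e1, Fin.ext_iff]
  have h02 : i0 ≠ i2 := by simp [e0, e2, Fin.ext_iff]
  have h03 : i0 ≠ i3 := by simp [e0, e3, Fin.ext_iff]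
  have h12 : i1 ≠ i2 := by simp [e1, e2, Fin.ext_iff]
  have h13 : i1 ≠ i3 := by simp [e1, e3, Fin.ext_iff]
  have h23 : i2 ≠ i3 := by simp [e2, e3, Fin.ext_iff]
  clear_value i0 i1 i2 i3
  set α : ℝ := Real.sqrt ((n : ℝ) / (n - 1)) with hα
  have hα2 : α ^ 2 = (n : ℝ) / (n - 1) := by
    rw [hα]
    exact Real.sq_sqrt (div_nonneg (by linarith) (by linarith))
  set e := (Fintype.equivFin (Fin n × Fin n)).symm with he
  have hsum : ∀ g : Fin n × Fin n → ℝ, ∑ c, g (e c) = ∑ c, g c := fun g => e.sum_comp g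
  have hB : ∀ (v x : Fin n → ℝ) (c : Fin n × Fin n),
      Bf (fun a b => α * SS i0 i1 i2 i3 c a b) v x = α / 2 * val i0 i1 i2 i3 v x c := by
    intro v x c
    rw [Bf_smul, ← Bf_SS]
    ring
  refine ⟨Fintype.card (Fin n × Fin n), ?_, fun c a b => α * SS i0 i1 i2 i3 (e c) a b, ?_⟩
  · rw [Fintype.card_prod, Fintype.card_fin]
    nlinarith
  · refine ⟨?_, ?_, ?_, ?_, ?_⟩
    · intro c i j
      rw [SS_symm]
    · intro c
      rw [← Finset.mul_sum, SS_tr h01 h02 h13 h23 hn0, mul_zero]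
    · intro x
      have h1 : ∀ c, qf (fun a b => α * SS i0 i1 i2 i3 (e c) a b) x ^ 2 =
          (fun c => α ^ 2 / 4 * val i0 i1 i2 i3 x x c ^ 2) (e c) := by
        intro c
        rw [qf_eq, hB]
        ring
      refine (Finset.sum_congr rfl fun c _ => h1 c).trans
        ((hsum (fun c => α ^ 2 / 4 * val i0 i1 i2 i3 x x c ^ 2)).trans ?_)
      rw [← Finset.mul_sum, master h01 h02 h03 h12 h13 h23 hn0, hα2, show ‖x‖ ^ 4 = (‖x‖ ^ 2) ^ 2 by ring, nsq]
      have h2 : ∑ a, x a * x a = ∑ a, x a ^ 2 := Finset.sum_congr rfl fun a _ => by ring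
      rw [h2]
      unfold p
      field_simp
      ring
    · intro x
      have h1 : ∀ c, ‖mv (fun a b => α * SS i0 i1 i2 i3 (e c) a b) x‖ ^ 2 =
          (fun c => ∑ a, α ^ 2 / 4 * val i0 i1 i2 i3 (Pi.single a 1) x c ^ 2) (e c) := by
        intro c
        rw [nsq]
        refine Finset.sum_congr rfl fun a _ => ?_
        rw [mv_eq, hB]
        ring
      refine (Finset.sum_congr rfl fun c _ => h1 c).trans
        ((hsum (fun c => ∑ a, α ^ 2 / 4 * val i0 i1 i2 i3 (Pi.single a 1) x c ^ 2)).trans ?_)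
      rw [Finset.sum_comm]
      have h3 : ∀ a : Fin n, ∑ c, α ^ 2 / 4 * val i0 i1 i2 i3 (Pi.single a 1) x c ^ 2 =
          α ^ 2 / 4 * (2 * (∑ b, x b ^ 2) + (2 - 4 / (n : ℝ)) * x a ^ 2) := by
        intro a
        rw [← Finset.mul_sum, master h01 h02 h03 h12 h13 h23 hn0, single_p h02 h03 h12 h13,
          single_p h01 h03 h12.symm h23]
        have h4 : ∑ b, (Pi.single a (1 : ℝ) : Fin n → ℝ) b ^ 2 = 1 := by
          simp [Pi.single_apply]
        have h5 : ∑ b, (Pi.single a (1 : ℝ) : Fin n → ℝ) b * x b = x a := by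
          simp [Pi.single_apply]
        rw [h4, h5]
        ring
      have h6 : ∑ a, (2 * (∑ b, x b ^ 2) + (2 - 4 / (n : ℝ)) * x a ^ 2) =
          n * (2 * ∑ b, x b ^ 2) + (2 - 4 / (n : ℝ)) * ∑ b, x b ^ 2 := by
        rw [Finset.sum_add_distrib, Finset.sum_const, Finset.card_univ, Fintype.card_fin,
          nsmul_eq_mul, Finset.mul_sum (a := 2 - 4 / (n : ℝ))]
      rw [Finset.sum_congr rfl fun a _ => h3 a, ← Finset.mul_sum, h6, nsq, hα2]
      field_simp
      ring
    · set xf : Fin n → ℝ := fun a => 1 / 2 * ((if a = i0 then 1 else 0) +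
        (if a = i1 then 1 else 0) + (if a = i2 then 1 else 0) + (if a = i3 then 1 else 0)) with hxf
      set vf : Fin n → ℝ := fun a => 1 / 2 * ((if a = i0 then 1 else 0) -
        (if a = i1 then 1 else 0) + (if a = i2 then 1 else 0) - (if a = i3 then 1 else 0)) with hvf
      have x0 : xf i0 = 1 / 2 := by simp [hxf, h01, h02, h03]
      have x1 : xf i1 = 1 / 2 := by simp [hxf, h01.symm, h12, h13]
      have x2 : xf i2 = 1 / 2 := by simp [hxf, h02.symm, h12.symm, h23]
      have x3 : xf i3 = 1 / 2 := by simp [hxf, h03.symm, h13.symm, h23.symm]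
      have v0 : vf i0 = 1 / 2 := by simp [hvf, h01, h02, h03]
      have v1 : vf i1 = -(1 / 2) := by simp [hvf, h01.symm, h12, h13]
      have v2 : vf i2 = 1 / 2 := by simp [hvf, h02.symm, h12.symm, h23]
      have v3 : vf i3 = -(1 / 2) := by simp [hvf, h03.symm, h13.symm, h23.symm]
      have hgen : ∀ g : Fin n → ℝ, ∑ a, xf a * g a = 1 / 2 * (g i0 + g i1 + g i2 + g i3) := by
        intro g
        simp only [hxf, mul_assoc, add_mul, ite_mul, one_mul, zero_mul, ← Finset.mul_sum,
          Finset.sum_add_distrib, Finset.sum_ite_eq', Finset.mem_univ, if_true]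
      have hgen' : ∀ g : Fin n → ℝ, ∑ a, vf a * g a = 1 / 2 * (g i0 - g i1 + g i2 - g i3) := by
        intro g
        simp only [hvf, mul_assoc, add_mul, sub_mul, ite_mul, one_mul, zero_mul, ← Finset.mul_sum,
          Finset.sum_add_distrib, Finset.sum_sub_distrib, Finset.sum_ite_eq', Finset.mem_univ,
          if_true]
      have hxx : ∑ a, xf a ^ 2 = 1 := by
        rw [Finset.sum_congr rfl fun a _ => sq (xf a), hgen, x0, x1, x2, x3]
        norm_num
      have hvv : ∑ a, vf a ^ 2 = 1 := by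
        rw [Finset.sum_congr rfl fun a _ => sq (vf a), hgen', v0, v1, v2, v3]
        norm_num
      have hvx : ∑ a, vf a * xf a = 0 := by
        rw [hgen', x0, x1, x2, x3]
        norm_num
      refine ⟨WithLp.toLp 2 xf, WithLp.toLp 2 vf, ?_, ?_, ?_, ?_⟩
      · have h1 := nsq (WithLp.toLp 2 xf : E n)
        have h2 : ‖(WithLp.toLp 2 xf : E n)‖ ^ 2 = 1 := h1.trans hxx
        have h3 := norm_nonneg (WithLp.toLp 2 xf : E n)
        nlinarith
      · have h1 := nsq (WithLp.toLp 2 vf : E n)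
        have h2 : ‖(WithLp.toLp 2 vf : E n)‖ ^ 2 = 1 := h1.trans hvv
        have h3 := norm_nonneg (WithLp.toLp 2 vf : E n)
        nlinarith
      · rw [PiLp.inner_apply]
        simp only [RCLike.inner_apply, conj_trivial]
        exact hvx
      · have h1 : ∀ c, (2 * inner ℝ (WithLp.toLp 2 vf : E n)
            (mv (fun a b => α * SS i0 i1 i2 i3 (e c) a b) (WithLp.toLp 2 xf))) ^ 2 =
            (fun c => α ^ 2 * val i0 i1 i2 i3 vf xf c ^ 2) (e c) := by
          intro c
          rw [inner_mv, hB]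
          ring
        intro h2
        have h5 := ((Finset.sum_congr rfl fun c _ => h1 c).trans
          (hsum (fun c => α ^ 2 * val i0 i1 i2 i3 vf xf c ^ 2))).symm.trans h2
        rw [← Finset.mul_sum, master h01 h02 h03 h12 h13 h23 hn0, hvv, hxx, hvx, hα2] at h5
        unfold p at h5
        rw [x0, x1, x2, x3, v0, v1, v2, v3] at h5
        have h3 : 3 * ((n : ℝ) / (n - 1)) = 2 * ((n : ℝ) / (n - 1)) := by
          rw [mul_div_assoc] at h5
          linarith
        have h4 : (n : ℝ) / (n - 1) ≠ 0 := div_ne_zero hn0 hn1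
        apply h4
        linarith

end Pool.Agent.T6.H20.BU
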