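import Pool.Agent.T6.H20.BU.Defs

/-! Module GRN: the divergence theorem on the half-space for `C¹` functions of compact support. -/

set_option autoImplicit false

namespace Pool.Agent.T6.H20.BU

open MeasureTheory Filter Topology Set

namespace Grn

/-- the point with `j`-th coordinate `t` and other coordinates `y` -/
noncomputable def Ph {m : ℕ} (j : Fin (m + 1)) (p : ℝ × (Fin m → ℝ)) : E (m + 1) :=
  WithLp.toLp 2 (j.insertNth (α := fun _ => ℝ) p.1 p.2)

theorem Ph_self {m : ℕ} (j : Fin (m + 1)) (t : ℝ) (y : Fin m → ℝ) : (Ph j (t, y)) j = t := by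
  simp [Ph]

theorem Ph_succ {m : ℕ} (j : Fin (m + 1)) (t : ℝ) (y : Fin m → ℝ) (k : Fin m) :
    (Ph j (t, y)) (j.succAbove k) = y k := by
  simp [Ph]

theorem Ph_add {m : ℕ} (j : Fin (m + 1)) (t : ℝ) (y : Fin m → ℝ) :
    Ph j (t, y) = Ph j (0, y) + t • EuclideanSpace.single j 1 := by
  ext i
  rw [PiLp.add_apply, PiLp.smul_apply]
  rcases eq_or_ne i j with rfl | h
  · rw [Ph_self, Ph_self]; simp
  · obtain ⟨k, rfl⟩ := Fin.exists_succAbove_eq h
    rw [Ph_succ, Ph_succ]
    simp [h]

theorem deriv_line {m : ℕ} (g : E (m + 1) → ℝ) (hg : ContDiff ℝ 1 g) (j : Fin (m + 1))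
    (y : Fin m → ℝ) (t : ℝ) :
    HasDerivAt (fun t => g (Ph j (t, y))) (pd g j (Ph j (t, y))) t := by
  have h1 : HasDerivAt (fun t : ℝ => Ph j (t, y)) (EuclideanSpace.single j 1) t := by
    have h2 : (fun t : ℝ => Ph j (t, y)) =
        fun t => Ph j (0, y) + t • (EuclideanSpace.single j 1 : E (m + 1)) := by
      funext t; exact Ph_add j t y
    rw [h2]
    have h3 := ((hasDerivAt_id t).smul_const (EuclideanSpace.single j 1 : E (m + 1))).const_add
      (Ph j (0, y))
    simpa using h3
  have h4 : HasFDerivAt g (fderiv ℝ g (Ph j (t, y))) (Ph j (t, y)) :=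
    (hg.differentiable (by norm_num) _).hasFDerivAt
  exact h4.comp_hasDerivAt t h1

theorem bdd {F : Type*} [NormedAddCommGroup F] {n : ℕ} (g : E n → F) (hg : HasCompactSupport g) :
    ∃ R : ℝ, ∀ x, R < ‖x‖ → g x = 0 := by
  obtain ⟨R, hR⟩ := hg.isCompact.isBounded.subset_closedBall 0
  refine ⟨R, fun x hx => ?_⟩
  by_contra h
  have h1 := hR (subset_tsupport g h)
  rw [mem_closedBall_zero_iff] at h1
  linarith

theorem norm_Ph {m : ℕ} (j : Fin (m + 1)) (t : ℝ) (y : Fin m → ℝ) : |t| ≤ ‖Ph j (t, y)‖ := by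
  have h := PiLp.norm_apply_le (p := 2) (Ph j (t, y)) j
  rw [Ph_self] at h
  simpa using h

theorem pd_cont {n : ℕ} (g : E n → ℝ) (hg : ContDiff ℝ 1 g) (j : Fin n) : Continuous (pd g j) :=
  (hg.continuous_fderiv (by norm_num)).clm_apply continuous_const

theorem pd_supp {n : ℕ} (g : E n → ℝ) (hs : HasCompactSupport g) (j : Fin n) :
    HasCompactSupport (pd g j) := hs.fderiv_apply (𝕜 := ℝ) _

theorem Ph_cont {m : ℕ} (j : Fin (m + 1)) (y : Fin m → ℝ) :
    Continuous (fun t : ℝ => Ph j (t, y)) := by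
  have h2 : (fun t : ℝ => Ph j (t, y)) =
      fun t => Ph j (0, y) + t • (EuclideanSpace.single j 1 : E (m + 1)) := by
    funext t; exact Ph_add j t y
  rw [h2]
  fun_prop

theorem int_line {m : ℕ} (g : E (m + 1) → ℝ) (hg : ContDiff ℝ 1 g) (hs : HasCompactSupport g)
    (j : Fin (m + 1)) (y : Fin m → ℝ) : Integrable (fun t => pd g j (Ph j (t, y))) := by
  obtain ⟨R, hR⟩ := bdd _ (pd_supp g hs j)
  refine Continuous.integrable_of_hasCompactSupport ((pd_cont g hg j).comp (Ph_cont j y)) ?_
  refine HasCompactSupport.intro (isCompact_Icc (a := -R) (b := R)) fun t ht => ?_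
  apply hR
  refine lt_of_lt_of_le ?_ (norm_Ph j t y)
  by_contra h
  push Not at h
  exact ht (abs_le.1 h)

theorem tendsto_top {m : ℕ} (g : E (m + 1) → ℝ) (hs : HasCompactSupport g)
    (j : Fin (m + 1)) (y : Fin m → ℝ) : Tendsto (fun t => g (Ph j (t, y))) atTop (𝓝 0) := by
  obtain ⟨R, hR⟩ := bdd _ hs
  refine tendsto_const_nhds.congr' ?_
  filter_upwards [eventually_gt_atTop R, eventually_gt_atTop 0] with t ht h0
  symm
  apply hR
  refine lt_of_lt_of_le ?_ (norm_Ph j t y)
  rwa [abs_of_pos h0]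

theorem tendsto_bot {m : ℕ} (g : E (m + 1) → ℝ) (hs : HasCompactSupport g)
    (j : Fin (m + 1)) (y : Fin m → ℝ) : Tendsto (fun t => g (Ph j (t, y))) atBot (𝓝 0) := by
  obtain ⟨R, hR⟩ := bdd _ hs
  refine tendsto_const_nhds.congr' ?_
  filter_upwards [eventually_lt_atBot (-R), eventually_lt_atBot 0] with t ht h0
  symm
  apply hR
  refine lt_of_lt_of_le ?_ (norm_Ph j t y)
  rw [abs_of_neg h0]
  linarith

theorem mp {m : ℕ} (j : Fin (m + 1)) :
    MeasurePreserving (((MeasurableEquiv.toLp 2 (Fin (m + 1) → ℝ)).symm.trans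
      (MeasurableEquiv.piFinSuccAbove (fun _ => ℝ) j))) volume volume :=
  (volume_preserving_piFinSuccAbove (fun _ => ℝ) j).comp
    (EuclideanSpace.volume_preserving_symm_measurableEquiv_toLp (Fin (m + 1)))

theorem eq_Ph {m : ℕ} (j : Fin (m + 1)) (x : E (m + 1)) :
    Ph j (((MeasurableEquiv.toLp 2 (Fin (m + 1) → ℝ)).symm.trans
      (MeasurableEquiv.piFinSuccAbove (fun _ => ℝ) j)) x) = x := by
  ext i
  exact congrFun ((Fin.insertNthEquiv (fun _ => ℝ) j).apply_symm_apply x.ofLp) i

theorem integral_split {m : ℕ} (j : Fin (m + 1)) (f : E (m + 1) → ℝ) (hf : Integrable f) :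
    ∫ x, f x = ∫ y : Fin m → ℝ, ∫ t : ℝ, f (Ph j (t, y)) := by
  have h1 : ∀ x, f x = (fun p => f (Ph j p)) (((MeasurableEquiv.toLp 2 (Fin (m + 1) → ℝ)).symm.trans
      (MeasurableEquiv.piFinSuccAbove (fun _ => ℝ) j)) x) := fun x => by
    simp only [eq_Ph]
  have h2 : ∫ x, f x = ∫ p, f (Ph j p) := by
    rw [← (mp j).integral_comp' (fun p => f (Ph j p))]
    exact integral_congr_ae (Eventually.of_forall h1)
  have h3 : Integrable (fun p : ℝ × (Fin m → ℝ) => f (Ph j p)) := by
    rw [← (mp j).integrable_comp_emb (MeasurableEquiv.measurableEmbedding _)]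
    refine hf.congr (Eventually.of_forall h1)
  rw [h2]
  exact integral_prod_symm _ h3

end Grn

open Grn

theorem green : StmtGreen := by
  intro m g hg hs j
  have hmeas : MeasurableSet (half m) := by
    have : half m = (fun x : E (m + 1) => x (Fin.last m)) ⁻¹' Ioi 0 := rfl
    rw [this]
    exact (by fun_prop : Measurable fun x : E (m + 1) => x (Fin.last m)) measurableSet_Ioi
  have hint : Integrable (pd g j) :=
    (pd_cont g hg j).integrable_of_hasCompactSupport (pd_supp g hs j)
  rw [← integral_indicator hmeas, integral_split j _ (hint.indicator hmeas)]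
  by_cases hj : j = Fin.last m
  · subst hj
    rw [if_pos rfl]
    have h1 : ∀ y : Fin m → ℝ, ∫ t : ℝ, (half m).indicator (pd g (Fin.last m))
        (Ph (Fin.last m) (t, y)) = -g (Ph (Fin.last m) (0, y)) := by
      intro y
      have h2 : (fun t : ℝ => (half m).indicator (pd g (Fin.last m)) (Ph (Fin.last m) (t, y))) =
          (Ioi (0 : ℝ)).indicator fun t => pd g (Fin.last m) (Ph (Fin.last m) (t, y)) := by
        funext t
        have h3 : Ph (Fin.last m) (t, y) ∈ half m ↔ t ∈ Ioi (0 : ℝ) := by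
          change 0 < (Ph (Fin.last m) (t, y)) (Fin.last m) ↔ 0 < t
          rw [Ph_self]
        by_cases ht : t ∈ Ioi (0 : ℝ)
        · rw [indicator_of_mem ht, indicator_of_mem (h3.2 ht)]
        · rw [indicator_of_notMem ht, indicator_of_notMem (fun h => ht (h3.1 h))]
      rw [h2, integral_indicator measurableSet_Ioi,
        integral_Ioi_of_hasDerivAt_of_tendsto' (f := fun t => g (Ph (Fin.last m) (t, y)))
          (fun t _ => deriv_line g hg (Fin.last m) y t) (int_line g hg hs _ y).integrableOn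
          (tendsto_top g hs _ y)]
      ring
    simp_rw [h1]
    rw [integral_neg]
    congr 1
    have h4 := (EuclideanSpace.volume_preserving_symm_measurableEquiv_toLp (Fin m)).integral_comp'
      (fun y : Fin m → ℝ => g (Ph (Fin.last m) (0, y)))
    rw [← h4]
    refine integral_congr_ae (Eventually.of_forall fun y => ?_)
    simp only
    congr 1
    simp only [Ph, bd, Fin.insertNth_last]
    rfl
  · rw [if_neg hj]
    obtain ⟨k, hk⟩ := Fin.exists_succAbove_eq (Ne.symm hj)
    have h1 : ∀ y : Fin m → ℝ, ∫ t : ℝ, (half m).indicator (pd g j) (Ph j (t, y)) = 0 := by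
      intro y
      have h3 : ∀ t, Ph j (t, y) ∈ half m ↔ 0 < y k := by
        intro t
        change 0 < (Ph j (t, y)) (Fin.last m) ↔ 0 < y k
        rw [← hk, Ph_succ]
      by_cases hy : 0 < y k
      · have h2 : (fun t : ℝ => (half m).indicator (pd g j) (Ph j (t, y))) =
            fun t => pd g j (Ph j (t, y)) := by
          funext t
          rw [indicator_of_mem ((h3 t).2 hy)]
        rw [h2, integral_of_hasDerivAt_of_tendsto (f := fun t => g (Ph j (t, y)))
          (fun t => deriv_line g hg j y t) (int_line g hg hs _ y)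
          (tendsto_bot g hs _ y) (tendsto_top g hs _ y)]
        ring
      · have h2 : (fun t : ℝ => (half m).indicator (pd g j) (Ph j (t, y))) = fun _ => 0 := by
          funext t
          rw [indicator_of_notMem (fun h => hy ((h3 t).1 h))]
        rw [h2]
        simp
    simp_rw [h1]
    simp

end Pool.Agent.T6.H20.BU
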