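import Pool.Agent.T6.H20.BU.Defs

/-!
# Project BU, module HOM: the homogeneous vector field
-/

set_option autoImplicit false

namespace Pool.Agent.T6.H20.BU

namespace ModHom

open Filter Topology

variable {n : ℕ}

/-- `mv S` as a continuous linear map -/
noncomputable def mvL (S : Fin n → Fin n → ℝ) : E n →L[ℝ] E n :=
  LinearMap.toContinuousLinearMap
    { toFun := mv S
      map_add' := fun x y => by
        ext i
        simp [mv, mul_add, Finset.sum_add_distrib]
      map_smul' := fun c x => by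
        ext i
        simp [mv, Finset.mul_sum]
        refine Finset.sum_congr rfl fun j _ => ?_
        ring }

theorem mvL_apply (S : Fin n → Fin n → ℝ) (x : E n) : mvL S x = mv S x := rfl

theorem qf_eq (S : Fin n → Fin n → ℝ) (x : E n) : qf S x = inner ℝ x (mvL S x) := by
  rw [mvL_apply, PiLp.inner_apply]
  unfold qf mv
  refine Finset.sum_congr rfl fun i _ => ?_
  simp only [RCLike.inner_apply, conj_trivial]
  rw [Finset.sum_mul]
  refine Finset.sum_congr rfl fun j _ => ?_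
  ring

/-- the transpose -/
def tp (S : Fin n → Fin n → ℝ) : Fin n → Fin n → ℝ := fun i j => S j i

theorem inner_tp (S : Fin n → Fin n → ℝ) (x h : E n) :
    inner ℝ x (mvL S h) = inner ℝ (mvL (tp S) x) h := by
  rw [mvL_apply, mvL_apply, PiLp.inner_apply, PiLp.inner_apply]
  unfold tp mv
  simp only [RCLike.inner_apply, conj_trivial]
  simp only [Finset.sum_mul, Finset.mul_sum]
  rw [Finset.sum_comm]
  refine Finset.sum_congr rfl fun i _ => ?_
  refine Finset.sum_congr rfl fun j _ => ?_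
  ring

theorem tp_eq {S : Fin n → Fin n → ℝ} (hS : ∀ i j, S i j = S j i) : tp S = S := by
  funext i j
  exact (hS i j).symm

theorem hasFDerivAt_qf (S : Fin n → Fin n → ℝ) (x : E n) :
    HasFDerivAt (qf S) (innerSL ℝ (mvL S x + mvL (tp S) x)) x := by
  have h1 : qf S = fun z => inner ℝ z (mvL S z) := funext (qf_eq S)
  rw [h1]
  have h2 := (hasFDerivAt_id x).inner ℝ (mvL S).hasFDerivAt
  refine HasFDerivAt.congr_fderiv h2 ?_
  ext h
  simp only [ContinuousLinearMap.comp_apply, ContinuousLinearMap.prod_apply,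
    fderivInnerCLM_apply, innerSL_apply_apply, ContinuousLinearMap.id_apply, id]
  rw [inner_tp, inner_add_left, real_inner_comm h (mvL S x)]
  ring

theorem hasFDerivAt_nrm (s : ℝ) {x : E n} (hx : x ≠ 0) :
    HasFDerivAt (fun z : E n => ‖z‖ ^ s) ((s * ‖x‖ ^ (s - 2)) • innerSL ℝ x) x := by
  have hn : 0 < ‖x‖ := norm_pos_iff.2 hx
  have h1 := (hasStrictFDerivAt_norm_sq x).hasFDerivAt
  have h2 : HasDerivAt (fun t : ℝ => t ^ (s / 2)) ((s / 2) * (‖x‖ ^ 2) ^ (s / 2 - 1)) (‖x‖ ^ 2) :=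
    Real.hasDerivAt_rpow_const (Or.inl (by positivity))
  have h3 := h2.comp_hasFDerivAt x h1
  have h4 : (fun z : E n => ‖z‖ ^ s) = fun z : E n => (‖z‖ ^ 2) ^ (s / 2) := by
    funext z
    rw [← Real.rpow_natCast, ← Real.rpow_mul (norm_nonneg z)]
    congr 1
    push_cast
    ring
  rw [h4]
  refine HasFDerivAt.congr_fderiv h3 ?_
  rw [← Real.rpow_natCast, ← Real.rpow_mul (norm_nonneg x)]
  ext h
  simp only [smul_apply, innerSL_apply_apply, smul_eq_mul]
  have h5 : ((2 : ℕ) : ℝ) * (s / 2 - 1) = s - 2 := by push_cast; ring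
  rw [h5]
  simp only [nsmul_eq_mul]
  push_cast
  ring

variable {F : Type*} [NormedAddCommGroup F] [NormedSpace ℝ F]

theorem bound_aux {g : E n → F} {C : ℝ} {k : ℕ} (hg : ∀ x, ‖g x‖ ≤ C * ‖x‖ ^ k) {s : ℝ}
    (hs : 0 < s + k) (x : E n) : ‖‖x‖ ^ s • g x‖ ≤ C * ‖x‖ ^ (s + k) := by
  rw [norm_smul, Real.norm_eq_abs, abs_of_nonneg (Real.rpow_nonneg (norm_nonneg x) s)]
  by_cases hx : x = 0
  · subst hx
    rw [norm_zero, Real.zero_rpow hs.ne', mul_zero]
    by_cases hk : k = 0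
    · subst hk
      have : s ≠ 0 := by
        rintro rfl
        simp at hs
      rw [Real.zero_rpow this, zero_mul]
    · have h1 := hg 0
      rw [norm_zero, zero_pow hk, mul_zero] at h1
      have h2 : ‖g 0‖ = 0 := le_antisymm h1 (norm_nonneg _)
      rw [h2, mul_zero]
  · have hn : 0 < ‖x‖ := norm_pos_iff.2 hx
    rw [Real.rpow_add hn, Real.rpow_natCast]
    have := mul_le_mul_of_nonneg_left (hg x) (Real.rpow_nonneg (norm_nonneg x) s)
    nlinarith [this]

theorem cont_aux {g : E n → F} (hgc : Continuous g) {C : ℝ} {k : ℕ}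
    (hg : ∀ x, ‖g x‖ ≤ C * ‖x‖ ^ k) {s : ℝ} (hs : 0 < s + k) :
    Continuous (fun x : E n => ‖x‖ ^ s • g x) := by
  rw [continuous_iff_continuousAt]
  intro x
  by_cases hx : x = 0
  · subst hx
    have h0 : ‖(0 : E n)‖ ^ s • g 0 = 0 := by
      have := bound_aux hg hs 0
      rw [norm_zero, Real.zero_rpow hs.ne', mul_zero] at this
      rw [norm_zero]
      exact norm_le_zero_iff.1 this
    show Tendsto (fun x : E n => ‖x‖ ^ s • g x) (𝓝 0) (𝓝 (‖(0 : E n)‖ ^ s • g 0))
    rw [h0]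
    refine squeeze_zero_norm (bound_aux hg hs) ?_
    have h1 : Continuous (fun x : E n => C * ‖x‖ ^ (s + k)) :=
      continuous_const.mul (continuous_norm.rpow_const fun x => Or.inr hs.le)
    have h2 := h1.tendsto 0
    rw [norm_zero, Real.zero_rpow hs.ne', mul_zero] at h2
    exact h2
  · exact ((continuous_norm.continuousAt).rpow_const (Or.inl (norm_ne_zero_iff.2 hx))).smul
      hgc.continuousAt

theorem diff_aux {g : E n → F} {C : ℝ} {k : ℕ}
    (hg : ∀ x, ‖g x‖ ≤ C * ‖x‖ ^ k) {s : ℝ} (hs : 1 < s + k) :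
    HasFDerivAt (fun x : E n => ‖x‖ ^ s • g x) (0 : E n →L[ℝ] F) 0 := by
  have hs0 : 0 < s + k := by linarith
  have h0 : ‖(0 : E n)‖ ^ s • g 0 = 0 := by
    have := bound_aux hg hs0 0
    rw [norm_zero, Real.zero_rpow hs0.ne', mul_zero] at this
    rw [norm_zero]
    exact norm_le_zero_iff.1 this
  rw [hasFDerivAt_iff_isLittleO]
  simp only [sub_zero, zero_apply]
  rw [h0]
  simp only [sub_zero]
  have h1 : (fun x : E n => ‖x‖ ^ s • g x) =O[𝓝 0] fun x : E n => ‖x‖ ^ (s + k) := by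
    refine Asymptotics.IsBigO.of_bound C (Eventually.of_forall fun x => ?_)
    rw [Real.norm_eq_abs, abs_of_nonneg (Real.rpow_nonneg (norm_nonneg x) _)]
    exact bound_aux hg hs0 x
  refine h1.trans_isLittleO ?_
  have h2 : (fun x : E n => ‖x‖ ^ (s + k)) = fun x : E n => ‖x‖ ^ (s + k - 1) * ‖x‖ := by
    funext x
    by_cases hx : x = 0
    · subst hx
      rw [norm_zero, Real.zero_rpow hs0.ne', mul_zero]
    · have hn : 0 < ‖x‖ := norm_pos_iff.2 hx
      rw [Real.rpow_sub_one hn.ne']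
      field_simp
  rw [h2]
  have h3 : Tendsto (fun x : E n => ‖x‖ ^ (s + k - 1)) (𝓝 0) (𝓝 0) := by
    have h4 : Continuous (fun x : E n => ‖x‖ ^ (s + k - 1)) :=
      continuous_norm.rpow_const fun x => Or.inr (by linarith)
    have h5 := h4.tendsto 0
    rw [norm_zero, Real.zero_rpow (by linarith)] at h5
    exact h5
  have h6 := ((Asymptotics.isLittleO_one_iff ℝ).2 h3).mul_isBigO
    (Asymptotics.isBigO_refl (fun x : E n => ‖x‖) (𝓝 0))
  simp only [one_mul] at h6
  exact h6.of_norm_right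

theorem mv_bound (S : Fin n → Fin n → ℝ) (x : E n) : ‖mvL S x‖ ≤ ‖mvL S‖ * ‖x‖ ^ 1 := by
  rw [pow_one]
  exact (mvL S).le_opNorm x

theorem qf_bound (S : Fin n → Fin n → ℝ) (x : E n) : ‖qf S x‖ ≤ ‖mvL S‖ * ‖x‖ ^ 2 := by
  rw [qf_eq]
  calc ‖inner ℝ x (mvL S x)‖ ≤ ‖x‖ * ‖mvL S x‖ := norm_inner_le_norm _ _
    _ ≤ ‖x‖ * (‖mvL S‖ * ‖x‖) :=
        mul_le_mul_of_nonneg_left ((mvL S).le_opNorm x) (norm_nonneg _)
    _ = _ := by ring

theorem qfx_bound (S : Fin n → Fin n → ℝ) (x : E n) : ‖qf S x • x‖ ≤ ‖mvL S‖ * ‖x‖ ^ 3 := by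
  rw [norm_smul]
  calc ‖qf S x‖ * ‖x‖ ≤ (‖mvL S‖ * ‖x‖ ^ 2) * ‖x‖ :=
        mul_le_mul_of_nonneg_right (qf_bound S x) (norm_nonneg _)
    _ = _ := by ring

theorem qf_cont (S : Fin n → Fin n → ℝ) : Continuous (qf S) := by
  have h1 : qf S = fun z => inner ℝ z (mvL S z) := funext (qf_eq S)
  rw [h1]
  exact continuous_id.inner (mvL S).continuous

theorem K_eq (S : Fin n → Fin n → ℝ) (p b : ℝ) :
    K S p b = fun x => b • (‖x‖ ^ (p - 2) • (qf S x • x)) + (2 : ℝ) • (‖x‖ ^ p • mvL S x) := by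
  funext x
  unfold K
  rw [mvL_apply, smul_smul, smul_smul, smul_smul, mul_assoc]

theorem K_zero (S : Fin n → Fin n → ℝ) (p b : ℝ) : K S p b 0 = 0 := by
  rw [K_eq]
  simp

/-- the derivative of `K S p b` -/
noncomputable def KD (S : Fin n → Fin n → ℝ) (p b : ℝ) (x : E n) : E n →L[ℝ] E n :=
  (b * (p - 2)) • (‖x‖ ^ (p - 4) • (qf S x • (innerSL ℝ x).smulRight x)) +
  b • (‖x‖ ^ (p - 2) • (innerSL ℝ (mvL S x + mvL (tp S) x)).smulRight x) +
  b • (‖x‖ ^ (p - 2) • (qf S x • ContinuousLinearMap.id ℝ (E n))) +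
  (2 * p) • (‖x‖ ^ (p - 2) • (innerSL ℝ x).smulRight (mvL S x)) +
  (2 : ℝ) • (‖x‖ ^ p • mvL S)

theorem hasFDerivAt_K_ne (S : Fin n → Fin n → ℝ) (p b : ℝ) {x : E n} (hx : x ≠ 0) :
    HasFDerivAt (K S p b) (KD S p b x) x := by
  rw [K_eq]
  have h1 := (hasFDerivAt_nrm (p - 2) hx).smul
    ((hasFDerivAt_qf S x).smul (hasFDerivAt_id x))
  have h2 := (hasFDerivAt_nrm p hx).smul ((mvL S).hasFDerivAt (x := x))
  have h3 := (h1.const_smul b).add (h2.const_smul (2 : ℝ))
  refine HasFDerivAt.congr_fderiv h3 ?_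
  unfold KD
  ext h : 1
  simp only [add_apply, smul_apply, ContinuousLinearMap.smulRight_apply, innerSL_apply_apply,
    ContinuousLinearMap.id_apply, id, smul_eq_mul, Pi.smul_apply']
  have h4 : p - 2 - 2 = p - 4 := by ring
  rw [h4]
  module

theorem hasFDerivAt_K_zero (S : Fin n → Fin n → ℝ) {p b : ℝ} (hp : 0 < p) :
    HasFDerivAt (K S p b) (0 : E n →L[ℝ] E n) 0 := by
  rw [K_eq]
  have h1 := diff_aux (qfx_bound S) (s := p - 2) (by push_cast; linarith)
  have h2 := diff_aux (mv_bound S) (s := p) (by push_cast; linarith)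
  have h3 := (h1.const_smul b).add (h2.const_smul (2 : ℝ))
  refine HasFDerivAt.congr_fderiv h3 ?_
  simp

theorem KD_zero (S : Fin n → Fin n → ℝ) {p b : ℝ} (hp : 0 < p) : KD S p b 0 = 0 := by
  unfold KD
  have h1 : qf S 0 = 0 := by
    rw [qf_eq, map_zero, inner_zero_left]
  ext h : 1
  simp only [h1, Real.zero_rpow hp.ne', map_zero, norm_zero, add_zero, zero_smul, smul_zero,
    add_apply, smul_apply, ContinuousLinearMap.smulRight_apply, zero_apply]

theorem hasFDerivAt_K (S : Fin n → Fin n → ℝ) {p b : ℝ} (hp : 0 < p) (x : E n) :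
    HasFDerivAt (K S p b) (KD S p b x) x := by
  by_cases hx : x = 0
  · subst hx
    rw [KD_zero S hp]
    exact hasFDerivAt_K_zero S hp
  · exact hasFDerivAt_K_ne S p b hx

theorem cont_sr {u : E n → (E n →L[ℝ] ℝ)} {v : E n → E n} (hu : Continuous u)
    (hv : Continuous v) : Continuous (fun x => (u x).smulRight (v x)) :=
  ((ContinuousLinearMap.smulRightL ℝ (E n) (E n)).continuous.comp hu).clm_apply hv

theorem KD_cont (S : Fin n → Fin n → ℝ) {p b : ℝ} (hp : 0 < p) : Continuous (KD S p b) := by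
  have hI : Continuous (fun x : E n => innerSL ℝ x) := (innerSL ℝ (E := E n)).continuous
  have c1 : Continuous fun x : E n => ‖x‖ ^ (p - 4) • (qf S x • (innerSL ℝ x).smulRight x) := by
    have g1 : Continuous fun x : E n => qf S x • (innerSL ℝ x).smulRight x :=
      (qf_cont S).smul (cont_sr hI continuous_id)
    have g2 : ∀ x : E n, ‖qf S x • (innerSL ℝ x).smulRight x‖ ≤ ‖mvL S‖ * ‖x‖ ^ 4 := by
      intro x
      rw [norm_smul, ContinuousLinearMap.norm_smulRight_apply, innerSL_apply_norm]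
      calc ‖qf S x‖ * (‖x‖ * ‖x‖) ≤ (‖mvL S‖ * ‖x‖ ^ 2) * (‖x‖ * ‖x‖) :=
            mul_le_mul_of_nonneg_right (qf_bound S x) (by positivity)
        _ = _ := by ring
    have g3 : 0 < p - 4 + ((4 : ℕ) : ℝ) := by push_cast; linarith
    exact cont_aux g1 g2 g3
  have c2 : Continuous fun x : E n =>
      ‖x‖ ^ (p - 2) • (innerSL ℝ (mvL S x + mvL (tp S) x)).smulRight x := by
    have g1 : Continuous fun x : E n => (innerSL ℝ (mvL S x + mvL (tp S) x)).smulRight x :=
      cont_sr (hI.comp ((mvL S).continuous.add (mvL (tp S)).continuous)) continuous_id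
    have g2 : ∀ x : E n, ‖(innerSL ℝ (mvL S x + mvL (tp S) x)).smulRight x‖ ≤
        ‖mvL S + mvL (tp S)‖ * ‖x‖ ^ 2 := by
      intro x
      rw [ContinuousLinearMap.norm_smulRight_apply, innerSL_apply_norm]
      calc ‖mvL S x + mvL (tp S) x‖ * ‖x‖ ≤ (‖mvL S + mvL (tp S)‖ * ‖x‖) * ‖x‖ :=
            mul_le_mul_of_nonneg_right ((mvL S + mvL (tp S)).le_opNorm x) (norm_nonneg _)
        _ = _ := by ring
    have g3 : 0 < p - 2 + ((2 : ℕ) : ℝ) := by push_cast; linarith
    exact cont_aux g1 g2 g3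
  have c3 : Continuous fun x : E n =>
      ‖x‖ ^ (p - 2) • (qf S x • ContinuousLinearMap.id ℝ (E n)) := by
    have g1 : Continuous fun x : E n => qf S x • ContinuousLinearMap.id ℝ (E n) :=
      (qf_cont S).smul continuous_const
    have g2 : ∀ x : E n, ‖qf S x • ContinuousLinearMap.id ℝ (E n)‖ ≤ ‖mvL S‖ * ‖x‖ ^ 2 := by
      intro x
      rw [norm_smul]
      calc ‖qf S x‖ * ‖ContinuousLinearMap.id ℝ (E n)‖ ≤ (‖mvL S‖ * ‖x‖ ^ 2) * 1 :=
            mul_le_mul (qf_bound S x) ContinuousLinearMap.norm_id_le (norm_nonneg _)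
              (by positivity)
        _ = _ := by ring
    have g3 : 0 < p - 2 + ((2 : ℕ) : ℝ) := by push_cast; linarith
    exact cont_aux g1 g2 g3
  have c4 : Continuous fun x : E n =>
      ‖x‖ ^ (p - 2) • (innerSL ℝ x).smulRight (mvL S x) := by
    have g1 : Continuous fun x : E n => (innerSL ℝ x).smulRight (mvL S x) :=
      cont_sr hI (mvL S).continuous
    have g2 : ∀ x : E n, ‖(innerSL ℝ x).smulRight (mvL S x)‖ ≤ ‖mvL S‖ * ‖x‖ ^ 2 := by
      intro x
      rw [ContinuousLinearMap.norm_smulRight_apply, innerSL_apply_norm]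
      calc ‖x‖ * ‖mvL S x‖ ≤ ‖x‖ * (‖mvL S‖ * ‖x‖) :=
            mul_le_mul_of_nonneg_left ((mvL S).le_opNorm x) (norm_nonneg _)
        _ = _ := by ring
    have g3 : 0 < p - 2 + ((2 : ℕ) : ℝ) := by push_cast; linarith
    exact cont_aux g1 g2 g3
  have c5 : Continuous fun x : E n => ‖x‖ ^ p • mvL S :=
    (continuous_norm.rpow_const fun x => Or.inr hp.le).smul continuous_const
  have d1 := continuous_const.smul c1 (f := fun _ => b * (p - 2))
  have d2 := continuous_const.smul c2 (f := fun _ => b)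
  have d3 := continuous_const.smul c3 (f := fun _ => b)
  have d4 := continuous_const.smul c4 (f := fun _ => 2 * p)
  have d5 := continuous_const.smul c5 (f := fun _ => (2 : ℝ))
  exact (((d1.add d2).add d3).add d4).add d5

end ModHom

open ModHom

theorem grad : StmtGrad := by
  intro n S hS a ha x
  by_cases hx : x = 0
  · subst hx
    rw [K_zero, map_zero]
    exact diff_aux (qf_bound S) (s := a - 2) (by push_cast; linarith)
  · have h1 := (hasFDerivAt_nrm (a - 2) hx).mul (hasFDerivAt_qf S x)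
    refine HasFDerivAt.congr_fderiv h1 ?_
    rw [K_eq, tp_eq hS]
    ext h : 1
    simp only [add_apply, smul_apply, innerSL_apply_apply, smul_eq_mul, inner_add_left,
      real_inner_smul_left]
    ring

theorem kcont : StmtKcont := by
  intro n S p b hp
  rw [K_eq]
  have g3 : 0 < p - 2 + ((3 : ℕ) : ℝ) := by push_cast; linarith
  have g4 : 0 < p + ((1 : ℕ) : ℝ) := by push_cast; linarith
  have g1 : Continuous fun x : E n => qf S x • x := (qf_cont S).smul continuous_id
  have c1 := cont_aux g1 (qfx_bound S) g3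
  have c2 := cont_aux (mvL S).continuous (mv_bound S) g4
  exact (continuous_const.smul c1 (f := fun _ => b)).add
    (continuous_const.smul c2 (f := fun _ => (2 : ℝ)))

theorem kdiff : StmtKdiff := by
  intro n S p b hp
  rw [contDiff_one_iff_hasFDerivAt]
  exact ⟨KD S p b, KD_cont S hp, hasFDerivAt_K S hp⟩

theorem kdiv : StmtKdiv := by
  intro n S p b hS htr hp hb x
  rw [(hasFDerivAt_K S hp x).fderiv]
  have e1 : ∀ j : Fin n, inner ℝ x (EuclideanSpace.single j (1 : ℝ)) = x j := by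
    intro j
    rw [EuclideanSpace.inner_single_right]
    simp
  have e2 : ∀ (v : E n) (j : Fin n), inner ℝ v (EuclideanSpace.single j (1 : ℝ)) = v j := by
    intro v j
    rw [EuclideanSpace.inner_single_right]
    simp
  have e3 : ∀ j : Fin n, mvL S (EuclideanSpace.single j (1 : ℝ)) j = S j j := by
    intro j
    rw [mvL_apply]
    unfold mv
    simp
  have e4 : ∀ j : Fin n, KD S p b x (EuclideanSpace.single j 1) j =
      (b * (p - 2) * ‖x‖ ^ (p - 4) * qf S x) * (x j * x j) +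
      (2 * (b + p) * ‖x‖ ^ (p - 2)) * (x j * mvL S x j) +
      (b * ‖x‖ ^ (p - 2) * qf S x) * 1 + (2 * ‖x‖ ^ p) * S j j := by
    intro j
    unfold KD
    rw [tp_eq hS]
    simp only [add_apply, smul_apply, ContinuousLinearMap.smulRight_apply, innerSL_apply_apply,
      ContinuousLinearMap.id_apply, PiLp.add_apply, PiLp.smul_apply, smul_eq_mul, e2, e3,
      PiLp.single_apply, if_true]
    ring
  rw [Finset.sum_congr rfl fun j _ => e4 j]
  rw [Finset.sum_add_distrib, Finset.sum_add_distrib, Finset.sum_add_distrib, ← Finset.mul_sum,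
    ← Finset.mul_sum, ← Finset.mul_sum, ← Finset.mul_sum, htr]
  have s1 : ∑ j, x j * x j = ‖x‖ ^ 2 := by
    rw [← real_inner_self_eq_norm_sq, PiLp.inner_apply]
    refine Finset.sum_congr rfl fun j _ => ?_
    simp [pow_two]
  have s2 : ∑ j, x j * mvL S x j = qf S x := by
    rw [qf_eq, PiLp.inner_apply]
    refine Finset.sum_congr rfl fun j _ => ?_
    simp [mul_comm]
  have s3 : ∑ _j : Fin n, (1 : ℝ) = n := by simp
  rw [s1, s2, s3]
  by_cases hx : x = 0
  · subst hx
    have h1 : qf S 0 = 0 := by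
      rw [qf_eq, map_zero, inner_zero_left]
    rw [h1]
    ring
  · have hn : 0 < ‖x‖ := norm_pos_iff.2 hx
    have h1 : ‖x‖ ^ (p - 2) = ‖x‖ ^ (p - 4) * ‖x‖ ^ 2 := by
      rw [← Real.rpow_natCast, ← Real.rpow_add hn]
      congr 1
      push_cast
      ring
    rw [h1]
    linear_combination (‖x‖ ^ (p - 4) * ‖x‖ ^ 2 * qf S x) * hb

end Pool.Agent.T6.H20.BU
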