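import Pool.Agent.T6.H20.BU.Defs

/-!
# Project BU, module INV: the Moebius map of the half-space onto the ball
-/

set_option autoImplicit false

namespace Pool.Agent.T6.H20.BU

namespace ModInv

variable {m : ℕ}

theorem norm_en : ‖en m‖ = 1 := by
  unfold en
  simp

theorem inner_en (w : E (m + 1)) : inner ℝ (en m) w = w (Fin.last m) := by
  unfold en
  rw [EuclideanSpace.inner_single_left]
  simp

theorem add_en_last (x : E (m + 1)) : (x + en m) (Fin.last m) = x (Fin.last m) + 1 := by
  unfold en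
  simp

theorem add_en_ne {x : E (m + 1)} (h : -1 < x (Fin.last m)) : x + en m ≠ 0 := by
  intro h0
  have h1 := add_en_last x
  rw [h0] at h1
  simp at h1
  linarith

theorem PP_pos {x : E (m + 1)} (h : -1 < x (Fin.last m)) : 0 < PP x := by
  unfold PP
  have := norm_pos_iff.2 (add_en_ne h)
  positivity

theorem inner_self (x : E (m + 1)) : inner ℝ (x + en m) (x + en m) = PP x := by
  unfold PP
  exact real_inner_self_eq_norm_sq _

theorem Rf_inner {x : E (m + 1)} (v w : E (m + 1)) :
    inner ℝ (Rf x v) w = inner ℝ v (Rf x w) := by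
  unfold Rf
  rw [inner_sub_left, inner_sub_right, real_inner_smul_left, real_inner_smul_right,
    real_inner_comm w (x + en m), real_inner_comm v (x + en m)]
  ring

theorem Rf_Rf {x : E (m + 1)} (h : -1 < x (Fin.last m)) (w : E (m + 1)) :
    Rf x (Rf x w) = w := by
  have hP := (PP_pos h).ne'
  have h1 : Rf x (Rf x w) = w - (2 / PP x * inner ℝ (x + en m) w) • (x + en m) -
      (2 / PP x * (inner ℝ (x + en m) w - (2 / PP x * inner ℝ (x + en m) w) * PP x)) •
        (x + en m) := by
    unfold Rf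
    rw [inner_sub_right, real_inner_smul_right, inner_self]
  rw [h1, sub_sub, ← add_smul]
  have h2 : 2 / PP x * inner ℝ (x + en m) w +
      2 / PP x * (inner ℝ (x + en m) w - (2 / PP x * inner ℝ (x + en m) w) * PP x) = 0 := by
    field_simp
    ring
  rw [h2, zero_smul, sub_zero]

theorem Rf_norm {x : E (m + 1)} (h : -1 < x (Fin.last m)) (w : E (m + 1)) :
    ‖Rf x w‖ = ‖w‖ := by
  have h1 : ‖Rf x w‖ ^ 2 = ‖w‖ ^ 2 := by
    rw [← real_inner_self_eq_norm_sq, ← real_inner_self_eq_norm_sq, Rf_inner, Rf_Rf h]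
  exact (sq_eq_sq₀ (norm_nonneg _) (norm_nonneg _)).1 h1

theorem hasFDerivAt_PP (x : E (m + 1)) :
    HasFDerivAt (fun z : E (m + 1) => PP z) ((2 : ℝ) • innerSL ℝ (x + en m)) x := by
  have h1 := (hasStrictFDerivAt_norm_sq (x + en m)).hasFDerivAt
  have h2 : HasFDerivAt (fun z : E (m + 1) => z + en m) (ContinuousLinearMap.id ℝ _) x :=
    (hasFDerivAt_id x).add_const _
  have h3 := HasFDerivAt.comp x h1 h2
  exact h3.congr_fderiv (by ext z; simp)

/-- the derivative of `2 / PP` -/
theorem hasFDerivAt_inv {x : E (m + 1)} (h : -1 < x (Fin.last m)) :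
    HasFDerivAt (fun z : E (m + 1) => 2 / PP z) ((-4 / PP x ^ 2) • innerSL ℝ (x + en m)) x := by
  have hP := (PP_pos h).ne'
  have h1 : HasDerivAt (fun t : ℝ => 2 / t) (-2 / PP x ^ 2) (PP x) := by
    have h3 := (hasDerivAt_inv hP).const_mul 2
    exact h3.congr_deriv (by ring)
  have h2 := h1.comp_hasFDerivAt x (hasFDerivAt_PP x)
  refine HasFDerivAt.congr_fderiv h2 ?_
  rw [smul_smul]
  congr 1
  ring

theorem hasFDerivAt_pow {x : E (m + 1)} (h : -1 < x (Fin.last m)) (k : ℕ) :
    HasFDerivAt (fun z : E (m + 1) => (1 / PP z) ^ k)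
      ((-2 * k * (1 / PP x) ^ (k + 1)) • innerSL ℝ (x + en m)) x := by
  have hP := (PP_pos h).ne'
  have h1 : HasDerivAt (fun t : ℝ => (1 / t) ^ k) (-k * (1 / PP x) ^ (k + 1)) (PP x) := by
    have h2 := hasDerivAt_zpow (-(k : ℤ)) (PP x) (Or.inl hP)
    have h3 : (fun t : ℝ => (1 / t) ^ k) = fun t : ℝ => t ^ (-(k : ℤ)) := by
      funext t
      rw [zpow_neg, zpow_natCast, one_div, inv_pow]
    rw [h3]
    refine h2.congr_deriv ?_
    have h4 : (-(k : ℤ) - 1) = -((k + 1 : ℕ) : ℤ) := by push_cast; ring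
    rw [h4, zpow_neg, zpow_natCast, one_div, inv_pow]
    push_cast
    ring
  have h2 := h1.comp_hasFDerivAt x (hasFDerivAt_PP x)
  refine HasFDerivAt.congr_fderiv h2 ?_
  rw [smul_smul]
  congr 1
  ring

/-- the derivative of `Mo` -/
noncomputable def MoD (x : E (m + 1)) : E (m + 1) →L[ℝ] E (m + 1) :=
  (2 / PP x) • ContinuousLinearMap.id ℝ _ +
    ((-4 / PP x ^ 2) • innerSL ℝ (x + en m)).smulRight (x + en m)

theorem MoD_apply {x : E (m + 1)} (h : E (m + 1)) :
    MoD x h = (2 / PP x) • Rf x h := by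
  unfold MoD Rf
  simp only [add_apply, smul_apply,
    ContinuousLinearMap.id_apply, ContinuousLinearMap.smulRight_apply, innerSL_apply_apply,
    smul_eq_mul]
  rw [smul_sub, smul_smul, sub_eq_add_neg, ← neg_smul]
  congr 2
  ring

theorem hasFDerivAt_Mo {x : E (m + 1)} (h : -1 < x (Fin.last m)) :
    HasFDerivAt (fun z : E (m + 1) => Mo z) (MoD x) x := by
  have h1 := hasFDerivAt_inv h
  have h2 : HasFDerivAt (fun z : E (m + 1) => z + en m) (ContinuousLinearMap.id ℝ _) x :=
    (hasFDerivAt_id x).add_const _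
  exact (h1.smul h2).sub_const _

end ModInv

open ModInv

theorem chain : StmtChain := by
  intro m x hx u g hu
  have h1 := hu.comp x (hasFDerivAt_Mo hx)
  refine HasFDerivAt.congr_fderiv h1 ?_
  ext h
  rw [ContinuousLinearMap.comp_apply, innerSL_apply_apply, innerSL_apply_apply]
  rw [MoD_apply, real_inner_smul_right, real_inner_smul_left, Rf_inner]

theorem piC1 : StmtPiC1 := by
  intro m W hW
  have hPP : ContDiff ℝ 1 (fun x : E (m + 1) => PP x) := by
    unfold PP
    exact (contDiff_id.add contDiff_const).norm_sq ℝ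
  have hne : ∀ x ∈ {x : E (m + 1) | -1 < x (Fin.last m)}, PP x ≠ 0 := fun x hx => (PP_pos hx).ne'
  have h2 : ContDiffOn ℝ 1 (fun x : E (m + 1) => 2 / PP x)
      {x : E (m + 1) | -1 < x (Fin.last m)} := contDiffOn_const.div hPP.contDiffOn hne
  have h3 : ContDiffOn ℝ 1 (fun x : E (m + 1) => (1 / PP x) ^ m)
      {x : E (m + 1) | -1 < x (Fin.last m)} :=
    (contDiffOn_const.div hPP.contDiffOn hne).pow m
  have h4 : ContDiff ℝ 1 (fun x : E (m + 1) => x + en m) := contDiff_id.add contDiff_const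
  have h5 : ContDiffOn ℝ 1 (fun x : E (m + 1) => Mo x) {x : E (m + 1) | -1 < x (Fin.last m)} := by
    unfold Mo
    exact (h2.smul h4.contDiffOn).sub contDiffOn_const
  have h6 : ContDiffOn ℝ 1 (fun x : E (m + 1) => W (Mo x))
      {x : E (m + 1) | -1 < x (Fin.last m)} := hW.comp_contDiffOn h5
  have h7 : ContDiffOn ℝ 1 (fun x : E (m + 1) => Rf x (W (Mo x)))
      {x : E (m + 1) | -1 < x (Fin.last m)} := by
    unfold Rf
    exact h6.sub ((h2.mul (h4.contDiffOn.inner ℝ h6)).smul h4.contDiffOn)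
  exact h3.smul h7

theorem piola : StmtPiola := by
  intro m W hW hdiv x hx
  have hP := PP_pos hx
  have hP' := hP.ne'
  set y : E (m + 1) := x + en m with hy
  set w : E (m + 1) := W (Mo x) with hw
  set D : E (m + 1) →L[ℝ] E (m + 1) := fderiv ℝ W (Mo x) with hD
  have hWd : HasFDerivAt W D (Mo x) := (hW.differentiable (by norm_num) (Mo x)).hasFDerivAt
  have hWM : HasFDerivAt (fun z => W (Mo z)) (D.comp (MoD x)) x := hWd.comp x (hasFDerivAt_Mo hx)
  have hid : HasFDerivAt (fun z : E (m + 1) => z + en m) (ContinuousLinearMap.id ℝ _) x :=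
    (hasFDerivAt_id x).add_const _
  have hin := hid.inner ℝ hWM
  have hsc := (hasFDerivAt_inv hx).mul hin
  have hR : HasFDerivAt (fun z => Rf z (W (Mo z))) _ x := hWM.sub (hsc.smul hid)
  have hPi : HasFDerivAt (fun z => Pi W z) _ x := (hasFDerivAt_pow hx m).smul hR
  have hcomp : ∀ j : Fin (m + 1), fderiv ℝ (Pi W) x (EuclideanSpace.single j 1) j =
      -2 * m * (1 / PP x) ^ (m + 1) * y j * (w j - 2 / PP x * inner ℝ y w * y j) +
      (1 / PP x) ^ m * ((2 / PP x) * (D (EuclideanSpace.single j 1) j - 2 / PP x * y j * D y j) -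
        ((-4 / PP x ^ 2) * y j * inner ℝ y w + (2 / PP x) * (w j + (2 / PP x) *
          (inner ℝ y (D (EuclideanSpace.single j 1)) - 2 / PP x * y j * inner ℝ y (D y)))) * y j -
        2 / PP x * inner ℝ y w) := by
    intro j
    have h1 : fderiv ℝ (Pi W) x = _ := hPi.fderiv
    rw [h1]
    have hyj : inner ℝ y (EuclideanSpace.single j (1 : ℝ)) = y j := by
      rw [EuclideanSpace.inner_single_right]
      simp
    have hwj : inner ℝ (EuclideanSpace.single j (1 : ℝ)) w = w j := by
      rw [EuclideanSpace.inner_single_left]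
      simp
    have hMj : MoD x (EuclideanSpace.single j 1) =
        (2 / PP x) • (EuclideanSpace.single j 1 - (2 / PP x * y j) • y) := by
      rw [MoD_apply]
      unfold Rf
      rw [← hy, hyj]
    have hDj : D (MoD x (EuclideanSpace.single j 1)) =
        (2 / PP x) • (D (EuclideanSpace.single j 1) - (2 / PP x * y j) • D y) := by
      rw [hMj, map_smul, map_sub, map_smul]
    have hRw : Rf x w = w - (2 / PP x * inner ℝ y w) • y := rfl
    simp only [add_apply, smul_apply, ContinuousLinearMap.smulRight_apply,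
      ContinuousLinearMap.comp_apply, sub_apply, ContinuousLinearMap.prod_apply,
      fderivInnerCLM_apply, ContinuousLinearMap.id_apply, innerSL_apply_apply, Pi.mul_apply]
    rw [← hw, ← hy, hDj, hyj, hwj, hRw, real_inner_smul_right, inner_sub_right,
      real_inner_smul_right]
    simp only [PiLp.add_apply, PiLp.sub_apply, PiLp.smul_apply, smul_eq_mul,
      PiLp.single_apply, if_true]
    ring
  have s1 : ∑ j, y j * w j = inner ℝ y w := by
    rw [PiLp.inner_apply]
    refine Finset.sum_congr rfl fun j _ => ?_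
    simp [mul_comm]
  have s2 : ∑ j, y j * y j = PP x := by
    rw [← inner_self, ← hy, PiLp.inner_apply]
    refine Finset.sum_congr rfl fun j _ => ?_
    simp [pow_two]
  have s3 : ∑ j, D (EuclideanSpace.single j 1) j = 0 := hdiv (Mo x)
  have s4 : ∑ j, y j * D y j = inner ℝ y (D y) := by
    rw [PiLp.inner_apply]
    refine Finset.sum_congr rfl fun j _ => ?_
    simp [mul_comm]
  have s5 : ∑ j, y j * inner ℝ y (D (EuclideanSpace.single j 1)) = inner ℝ y (D y) := by
    have hyy : y = ∑ j, y j • EuclideanSpace.single j (1 : ℝ) := by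
      ext i
      rw [WithLp.ofLp_sum, Finset.sum_apply, Finset.sum_eq_single i]
      · simp
      · intro b _ hb
        simp [hb.symm]
      · intro hb
        exact absurd (Finset.mem_univ _) hb
    have h1 : D y = ∑ j, y j • D (EuclideanSpace.single j (1 : ℝ)) := by
      conv_lhs => rw [hyy]
      rw [map_sum]
      simp only [map_smul]
    rw [h1, inner_sum]
    refine Finset.sum_congr rfl fun j _ => ?_
    rw [real_inner_smul_right]
  have s6 : ∑ _j : Fin (m + 1), (1 : ℝ) = m + 1 := by simp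
  rw [Finset.sum_congr rfl fun j _ => hcomp j]
  set a : ℝ := inner ℝ y w with ha
  set b : ℝ := inner ℝ y (D y) with hb
  set P : ℝ := PP x with hPdef
  have hsum : ∀ j, -2 * m * (1 / P) ^ (m + 1) * y j * (w j - 2 / P * a * y j) +
      (1 / P) ^ m * ((2 / P) * (D (EuclideanSpace.single j 1) j - 2 / P * y j * D y j) -
        ((-4 / P ^ 2) * y j * a + (2 / P) * (w j + (2 / P) *
          (inner ℝ y (D (EuclideanSpace.single j 1)) - 2 / P * y j * b))) * y j -
        2 / P * a) =
      (-2 * m * (1 / P) ^ (m + 1) - (1 / P) ^ m * (2 / P)) * (y j * w j) +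
      (4 * m * (1 / P) ^ (m + 1) * a / P + (1 / P) ^ m * (4 / P ^ 2 * a + 8 / P ^ 3 * b)) *
        (y j * y j) +
      ((1 / P) ^ m * (2 / P)) * D (EuclideanSpace.single j 1) j +
      (-(1 / P) ^ m * (4 / P ^ 2)) * (y j * D y j) +
      (-(1 / P) ^ m * (4 / P ^ 2)) * (y j * inner ℝ y (D (EuclideanSpace.single j 1))) +
      (-(1 / P) ^ m * (2 / P) * a) * 1 := by
    intro j
    field_simp
    ring
  rw [Finset.sum_congr rfl fun j _ => hsum j]
  rw [Finset.sum_add_distrib, Finset.sum_add_distrib, Finset.sum_add_distrib,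
    Finset.sum_add_distrib, Finset.sum_add_distrib, ← Finset.mul_sum, ← Finset.mul_sum,
    ← Finset.mul_sum, ← Finset.mul_sum, ← Finset.mul_sum, ← Finset.mul_sum, s1, s2, s3, s4, s5, s6]
  rw [pow_succ]
  field_simp
  ring

theorem bdry : StmtBdry := by
  intro m x hx
  have hP := PP_pos hx
  have hP' := hP.ne'
  have hPx : PP x = ‖x‖ ^ 2 + 2 * x (Fin.last m) + 1 := by
    unfold PP
    rw [norm_add_sq_real, real_inner_comm, inner_en, norm_en]
    ring
  have hMo : ‖Mo x‖ ^ 2 = 1 - 4 * x (Fin.last m) / PP x := by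
    unfold Mo
    rw [norm_sub_sq_real, norm_smul, real_inner_smul_left, real_inner_comm, inner_en,
      add_en_last, norm_en, mul_pow]
    have h1 : ‖x + en m‖ ^ 2 = PP x := rfl
    rw [h1, Real.norm_eq_abs, sq_abs]
    field_simp
    ring
  refine ⟨fun w => Rf_norm hx w, fun v w => Rf_inner v w, fun w => Rf_Rf hx w, fun h0 => ?_,
    fun h0 => ⟨?_, fun w => ?_⟩⟩
  · have h1 : ‖Mo x‖ ^ 2 ≤ 1 := by
      rw [hMo]
      have : 0 ≤ 4 * x (Fin.last m) / PP x := by positivity
      linarith
    nlinarith [norm_nonneg (Mo x)]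
  · have h1 : ‖Mo x‖ ^ 2 = 1 := by rw [hMo, h0]; simp
    nlinarith [norm_nonneg (Mo x)]
  · unfold Rf Mo
    rw [inner_sub_left, real_inner_smul_left, inner_en]
    have h2 : (x + en m) (Fin.last m) = 1 := by rw [add_en_last, h0, zero_add]
    simp only [PiLp.sub_apply, PiLp.smul_apply, smul_eq_mul, h2, mul_one]
    ring

end Pool.Agent.T6.H20.BU
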