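import Pool.Agent.T6.H20.BU.Fin
import Pool.Agent.T6.H20.BU.Eig
import Pool.Agent.T6.H20.BU.Hom
import Pool.Agent.T6.H20.BU.Inv
import Pool.Agent.T6.H20.BU.Grn

/-!
# Non-conformal bubbles for `n ≥ 4`
-/


set_option autoImplicit false

namespace Pool.Agent.T6.H20.BU

open MeasureTheory

/-- **Theorem.** For all `n = m + 1 ≥ 4` there is a bubble on the half-space of `ℝⁿ` which is not
conformal. -/
theorem from_four : ∀ m : ℕ, 3 ≤ m → ∃ d : ℕ, 2 ≤ d ∧
    ∃ (ω : E (m + 1) → Fin d → ℝ) (A : E (m + 1) → Fin d → E (m + 1)) (τ : E m → Fin d → ℝ),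
      IsBubble m d ω A τ ∧ ¬ IsConformal m d A := by
  intro m hm
  obtain ⟨d, hd, S, hE⟩ := eig (m + 1) (by omega)
  have hm3 : (3 : ℝ) ≤ m := by exact_mod_cast hm
  have hm0 : (0 : ℝ) < m := by linarith
  set a : ℝ := Real.sqrt (2 * (m + 1) / m) with hadef
  have ha : a ^ 2 * m = 2 * (m + 1) := by
    rw [hadef, Real.sq_sqrt (by positivity)]
    field_simp
  have ha0 : 0 ≤ a := Real.sqrt_nonneg _
  have ha14 : (7 / 5 : ℝ) < a := by
    by_contra h
    rw [not_lt] at h
    have h1 : a ^ 2 ≤ (7 / 5) ^ 2 := pow_le_pow_left₀ ha0 h 2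
    nlinarith
  refine ⟨d, hd, om S a, dom S a, fun y c => om S a (bd y) c, ?_, ?_⟩
  · exact bubble green hE grad kcont kdiff kdiv chain piC1 piola bdry (by omega) (by linarith) ha
      (by nlinarith)
  · exact not_conformal hE kcont bdry (by omega) (by linarith) ha

end Pool.Agent.T6.H20.BU
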