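import Pool.Agent.T6.H20.BU.Cut

set_option autoImplicit false

namespace Pool.Agent.T6.H20.BU

open MeasureTheory Filter Topology

theorem intOn_mul {n : ℕ} {S : Set (E n)} (hS : MeasurableSet S) {f φ : E n → ℝ}
    (hf : ∀ R : ℝ, IntegrableOn f (S ∩ Metric.ball 0 R)) (hφ : Continuous φ)
    (hc : HasCompactSupport φ) : IntegrableOn (fun x => f x * φ x) S := by
  obtain ⟨R, hR⟩ := hc.isBounded.subset_ball (0 : E n)
  have h1 : IntegrableOn (fun x => f x * φ x) (S ∩ Metric.ball 0 R) := by
    obtain ⟨C, hC⟩ := hc.exists_bound_of_continuous hφ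
    exact (hf R).mul_bdd (c := C) hφ.aestronglyMeasurable (Eventually.of_forall hC)
  refine h1.of_forall_sdiff_eq_zero hS ?_
  rintro x ⟨hx, hx'⟩
  have h2 : φ x = 0 := by
    by_contra h
    exact hx' ⟨hx, hR (subset_tsupport _ h)⟩
  simp [h2]

theorem pd_zero_of_notMem {n : ℕ} {g : E n → ℝ} {x : E n} (hx : x ∉ tsupport g) (j : Fin n) :
    pd g j x = 0 := by
  have h1 : g =ᶠ[𝓝 x] fun _ => (0 : ℝ) := notMem_tsupport_iff_eventuallyEq.1 hx
  rw [pd_congr h1]
  simp [pd]

theorem isOpen_far {n : ℕ} (R : ℝ) : IsOpen {x : E n | R < ‖x‖} :=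
  isOpen_lt continuous_const continuous_norm

/-- the gradient vanishes where the function does -/
theorem grad_zero {m : ℕ} {f : E (m + 1) → ℝ} {G : E (m + 1) → E (m + 1)} {τ : E m → ℝ} {R : ℝ}
    (h : WeakDiff m f G τ) (hf : ∀ᵐ x : E (m + 1), x ∈ half m → R ≤ ‖x‖ → f x = 0) :
    ∀ᵐ x : E (m + 1), x ∈ half m → R < ‖x‖ → G x = 0 := by
  set U : Set (E (m + 1)) := half m ∩ {x | R < ‖x‖} with hU
  have hUo : IsOpen U := (isOpen_half m).inter (isOpen_far R)
  have key : ∀ j : Fin (m + 1), ∀ᵐ x : E (m + 1), x ∈ U → G x j = 0 := by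
    intro j
    refine hUo.ae_eq_zero_of_integral_contDiff_smul_eq_zero ?_ ?_
    · intro x hx
      refine ⟨U ∩ Metric.ball 0 (‖x‖ + 1), ?_, ?_⟩
      · refine inter_mem self_mem_nhdsWithin (mem_nhdsWithin_of_mem_nhds ?_)
        exact Metric.isOpen_ball.mem_nhds (by simp)
      · have h1 : IntegrableOn G (U ∩ Metric.ball 0 (‖x‖ + 1)) :=
          (h.G_int (‖x‖ + 1)).mono_set (by
            rintro z ⟨hz, hz'⟩
            exact ⟨hz.1, hz'⟩)
        exact (EuclideanSpace.proj (𝕜 := ℝ) j).integrable_comp h1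
    · intro g hg hgc hgs
      have h1 := h.green g (hg.of_le (by exact_mod_cast le_top)) hgc j
      have hb : ∀ y : E m, g (bd y) = 0 := by
        intro y
        by_contra hne
        have h2 := hgs (subset_tsupport _ hne)
        have h3 : 0 < bd y (Fin.last m) := h2.1
        rw [bd_last] at h3
        exact lt_irrefl _ h3
      have h2 : (if j = Fin.last m then -∫ y : E m, τ y * g (bd y) else 0) = 0 := by
        split_ifs
        · simp [hb]
        · rfl
      rw [h2] at h1
      have h3 : ∫ x, g x • G x j = ∫ x in half m, (f x * pd g j x + G x j * g x) := by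
        rw [← setIntegral_eq_integral_of_forall_compl_eq_zero (s := half m)
          (f := fun x => g x • G x j)]
        · refine setIntegral_congr_ae (isOpen_half m).measurableSet ?_
          filter_upwards [hf] with x hx hxh
          have h4 : f x * pd g j x = 0 := by
            by_cases hxs : x ∈ tsupport g
            · rw [hx hxh (le_of_lt (hgs hxs).2), zero_mul]
            · rw [pd_zero_of_notMem hxs, mul_zero]
          rw [h4, zero_add, smul_eq_mul, mul_comm]
        · intro x hx
          have : g x = 0 := by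
            by_contra hne
            exact hx (hgs (subset_tsupport _ hne)).1
          simp [this]
      rw [h3, h1]
  have key2 := ae_all_iff.2 key
  filter_upwards [key2] with x hx hxh hxR
  ext j
  exact hx j ⟨hxh, hxR⟩

/-- smooth cutoff: `1` near the points of the closed half-space with `|x| < R`, compactly supported in
`Um` -/
theorem exists_cutoff (m : ℕ) (R : ℝ) : ∃ χ : E (m + 1) → ℝ, ContDiff ℝ 1 χ ∧ HasCompactSupport χ ∧
    tsupport χ ⊆ Um m ∧ ∀ x : E (m + 1), 0 ≤ x (Fin.last m) → ‖x‖ < R → ∀ᶠ z in 𝓝 x, χ z = 1 := by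
  have hpos : (0 : ℝ) < |R| + 1 := by positivity
  let β : ContDiffBump (0 : E (m + 1)) := ⟨|R| + 1, |R| + 2, hpos, by linarith⟩
  refine ⟨fun x => zeta x * β x, ?_, ?_, ?_, ?_⟩
  · exact (contDiff_zeta (k := 1)).mul β.contDiff
  · exact β.hasCompactSupport.mul_left
  · refine Set.Subset.trans (tsupport_mul_subset_left) tsupport_zeta
  · intro x hx hxR
    have h1 : x ∈ Metric.ball (0 : E (m + 1)) (|R| + 1) := by
      rw [mem_ball_zero_iff]
      have := le_abs_self R
      linarith
    filter_upwards [zeta_near hx, Metric.isOpen_ball.mem_nhds h1] with z hz hz'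
    have h2 : β z = 1 := β.one_of_mem_closedBall (Metric.ball_subset_closedBall hz')
    show zeta z * β z = 1
    rw [hz, h2, one_mul]

/-- **The weak equation.** -/
theorem weak_core {m d : ℕ} {F : Fin d → E (m + 1) → E (m + 1)} {τ : E m → Fin d → ℝ} {κ : E m → ℝ}
    (hF : ∀ c, ContDiffOn ℝ 1 (F c) (Um m))
    (hdiv : ∀ c, ∀ x ∈ half m, ∑ j, fderiv ℝ (F c) x (EuclideanSpace.single j 1) j = 0)
    (hbd : ∀ c, ∀ y : E m, F c (bd y) (Fin.last m) = κ y * τ y c)
    {Φ : E (m + 1) → Fin d → ℝ} {B : E (m + 1) → Fin d → E (m + 1)} {σ : E m → Fin d → ℝ}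
    (hW : ∀ c, WeakDiff m (fun x => Φ x c) (fun x => B x c) (fun y => σ y c))
    (hR : ∃ R : ℝ, ∀ᵐ x : E (m + 1), x ∈ half m → R ≤ ‖x‖ → ∀ c, Φ x c = 0)
    (hσ : ∀ᵐ y : E m, ∑ c, σ y c * τ y c = 0) :
    IntegrableOn (fun x => ∑ c, inner ℝ (F c x) (B x c)) (half m) ∧
      ∫ x in half m, ∑ c, inner ℝ (F c x) (B x c) = 0 := by
  obtain ⟨R, hR⟩ := hR
  obtain ⟨χ, hχ, hχc, hχU, hχ1⟩ := exists_cutoff m (R + 1)
  have hFj : ∀ c (j : Fin (m + 1)), ContDiffOn ℝ 1 (fun x => F c x j) (Um m) := fun c j =>
    (EuclideanSpace.proj (𝕜 := ℝ) j).contDiff.comp_contDiffOn (hF c)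
  let φ : Fin d → Fin (m + 1) → E (m + 1) → ℝ := fun c j x => χ x * F c x j
  have hφ : ∀ c j, ContDiff ℝ 1 (φ c j) := fun c j =>
    cut_contDiff (isOpen_Um m) hχ hχU (hFj c j)
  have hφc : ∀ c j, HasCompactSupport (φ c j) := fun c j => hχc.mul_right
  have hgreen : ∀ c j, ∫ x in half m, (Φ x c * pd (φ c j) j x + B x c j * φ c j x) =
      if j = Fin.last m then -∫ y : E m, σ y c * φ c j (bd y) else 0 := fun c j =>
    (hW c).green (φ c j) (hφ c j) (hφc c j) j
  have hi1 : ∀ c j, IntegrableOn (fun x => Φ x c * pd (φ c j) j x) (half m) := fun c j =>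
    intOn_mul (isOpen_half m).measurableSet (hW c).f_int (continuous_pd (hφ c j) j)
      (hasCompactSupport_pd (hφc c j) j)
  have hi2 : ∀ c j, IntegrableOn (fun x => B x c j * φ c j x) (half m) := fun c j =>
    intOn_mul (isOpen_half m).measurableSet
      (fun R => (EuclideanSpace.proj (𝕜 := ℝ) j).integrable_comp ((hW c).G_int R))
      (hφ c j).continuous (hφc c j)
  have hB : ∀ c, ∀ᵐ x : E (m + 1), x ∈ half m → R < ‖x‖ → B x c = 0 := by
    intro c
    refine grad_zero (hW c) ?_
    filter_upwards [hR] with x hx h1 h2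
    exact hx h1 h2 c
  have hB' := ae_all_iff.2 hB
  -- the integrand is a sum of products with test functions
  have e1 : ∀ᵐ x : E (m + 1), x ∈ half m →
      ∑ c, inner ℝ (F c x) (B x c) = ∑ c, ∑ j, B x c j * φ c j x := by
    filter_upwards [hB'] with x hx hxh
    refine Finset.sum_congr rfl fun c _ => ?_
    by_cases hxR : R < ‖x‖
    · rw [hx c hxh hxR]
      simp
    · have h1 : χ x = 1 := (hχ1 x (le_of_lt hxh) (by linarith)).self_of_nhds
      rw [PiLp.inner_apply]
      refine Finset.sum_congr rfl fun j _ => ?_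
      simp only [φ, h1, one_mul]
      simp [mul_comm]
  have e2 : ∀ᵐ x : E (m + 1), x ∈ half m →
      ∑ c, ∑ j, B x c j * φ c j x =
        ∑ c, ∑ j, (Φ x c * pd (φ c j) j x + B x c j * φ c j x) := by
    filter_upwards [hR] with x hx hxh
    refine Finset.sum_congr rfl fun c _ => ?_
    rw [Finset.sum_add_distrib, ← Finset.mul_sum]
    have h0 : Φ x c * ∑ j, pd (φ c j) j x = 0 := by
      by_cases hxR : R ≤ ‖x‖
      · rw [hx hxh hxR c, zero_mul]
      · rw [not_le] at hxR
        have h1 := hχ1 x (le_of_lt hxh) (by linarith)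
        have h2 : ∑ j, pd (φ c j) j x = ∑ j, fderiv ℝ (F c) x (EuclideanSpace.single j 1) j := by
          refine Finset.sum_congr rfl fun j _ => ?_
          have h3 : φ c j =ᶠ[𝓝 x] fun z => F c z j := by
            filter_upwards [h1] with z hz
            simp only [φ, hz, one_mul]
          rw [pd_congr h3]
          have h4 : DifferentiableAt ℝ (F c) x :=
            ((hF c).contDiffAt ((isOpen_Um m).mem_nhds (half_sub_Um m hxh))).differentiableAt
              one_ne_zero
          have h5 := ((EuclideanSpace.proj (𝕜 := ℝ) j).hasFDerivAt (x := F c x)).comp x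
            h4.hasFDerivAt
          have h6 : HasFDerivAt (fun z => F c z j)
            ((EuclideanSpace.proj (𝕜 := ℝ) j).comp (fderiv ℝ (F c) x)) x := h5
          unfold pd
          rw [h6.fderiv]
          rfl
        rw [h2, hdiv c x hxh, mul_zero]
    rw [h0, zero_add]
  have hint : IntegrableOn (fun x => ∑ c, ∑ j, B x c j * φ c j x) (half m) :=
    integrable_finsetSum _ fun c _ => integrable_finsetSum _ fun j _ => hi2 c j
  constructor
  · refine hint.congr ?_
    rw [EventuallyEq, ae_restrict_iff' (isOpen_half m).measurableSet]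
    filter_upwards [e1] with x hx hxh
    exact (hx hxh).symm
  · have hi12 : ∀ c j, Integrable (fun x => Φ x c * pd (φ c j) j x + B x c j * φ c j x)
        (volume.restrict (half m)) := fun c j => (hi1 c j).add (hi2 c j)
    rw [setIntegral_congr_ae (isOpen_half m).measurableSet e1,
      setIntegral_congr_ae (isOpen_half m).measurableSet e2]
    rw [integral_finsetSum _ fun c _ => integrable_finsetSum _ fun j _ => hi12 c j]
    have h1 : ∀ c, ∫ x in half m, ∑ j, (Φ x c * pd (φ c j) j x + B x c j * φ c j x) =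
        -∫ y : E m, σ y c * φ c (Fin.last m) (bd y) := by
      intro c
      rw [integral_finsetSum _ fun j _ => hi12 c j]
      simp_rw [hgreen c]
      rw [Finset.sum_ite_eq' Finset.univ (Fin.last m)]
      simp
    simp_rw [h1]
    rw [Finset.sum_neg_distrib, neg_eq_zero]
    have hi3 : ∀ c, Integrable (fun y : E m => σ y c * φ c (Fin.last m) (bd y)) := by
      intro c
      have hcb : HasCompactSupport (fun y : E m => φ c (Fin.last m) (bd y)) := by
        refine (hφc c (Fin.last m)).comp_isClosedEmbedding ?_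
        have hiso : Isometry (bd (m := m)) := by
          refine Isometry.of_dist_eq fun y z => ?_
          rw [EuclideanSpace.dist_eq, EuclideanSpace.dist_eq, Fin.sum_univ_castSucc]
          simp [bd]
        exact hiso.isClosedEmbedding
      have hcc : Continuous (fun y : E m => φ c (Fin.last m) (bd y)) :=
        (hφ c _).continuous.comp continuous_bd
      have := intOn_mul (S := Set.univ) MeasurableSet.univ (f := fun y => σ y c)
        (φ := fun y : E m => φ c (Fin.last m) (bd y)) (fun R => ?_) hcc hcb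
      · rwa [integrableOn_univ] at this
      · rw [Set.univ_inter]
        exact ((hW c).t_int.integrableOn_isCompact (isCompact_closedBall 0 R)).mono_set
          Metric.ball_subset_closedBall
    rw [← integral_finsetSum _ fun c _ => hi3 c]
    have h2 : (fun y : E m => ∑ c, σ y c * φ c (Fin.last m) (bd y)) =ᵐ[volume] fun _ => 0 := by
      filter_upwards [hσ] with y hy
      have h3 : ∑ c, σ y c * φ c (Fin.last m) (bd y) =
          (χ (bd y) * κ y) * ∑ c, σ y c * τ y c := by
        rw [Finset.mul_sum]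
        refine Finset.sum_congr rfl fun c _ => ?_
        simp only [φ, hbd c y]
        ring
      rw [h3, hy, mul_zero]
    rw [integral_congr_ae h2]
    simp

end Pool.Agent.T6.H20.BU
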