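import Pool.Agent.T6.H20.BU.Weak

set_option autoImplicit false

namespace Pool.Agent.T6.H20.BU

open MeasureTheory Filter Topology

/-! ### algebra of the fields `K` -/

theorem inner_mv {n : ℕ} (S : Fin n → Fin n → ℝ) (z : E n) : inner ℝ z (mv S z) = qf S z := by
  rw [PiLp.inner_apply]
  unfold qf mv
  refine Finset.sum_congr rfl fun i _ => ?_
  simp only [RCLike.inner_apply, conj_trivial]
  rw [Finset.sum_mul]
  refine Finset.sum_congr rfl fun j _ => ?_
  ring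

theorem K_zero {n : ℕ} (S : Fin n → Fin n → ℝ) (p b : ℝ) : K S p b 0 = 0 := by
  have h1 : mv S (0 : E n) = 0 := by
    ext i
    simp [mv]
  unfold K
  rw [h1]
  simp

theorem normsq_K {n : ℕ} (S : Fin n → Fin n → ℝ) (b : ℝ) {z : E n} (hz : z ≠ 0) :
    ‖K S b b z‖ ^ 2 = (‖z‖ ^ b) ^ 2 * (b ^ 2 / ‖z‖ ^ 2 * qf S z ^ 2 + 4 * b / ‖z‖ ^ 2 * qf S z ^ 2 +
      4 * ‖mv S z‖ ^ 2) := by
  have hr : 0 < ‖z‖ := norm_pos_iff.2 hz
  unfold K
  rw [norm_add_sq_real, norm_smul, norm_smul, inner_smul_left, inner_smul_right, inner_mv,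
    mul_pow, mul_pow, Real.norm_eq_abs, Real.norm_eq_abs, sq_abs, sq_abs,
    Real.rpow_sub hr, Real.rpow_two]
  simp only [conj_trivial]
  field_simp
  ring

variable {m d : ℕ} {S : Fin d → Fin (m + 1) → Fin (m + 1) → ℝ}

theorem sum_normsq_K (hE : Eig (m + 1) d S) {a : ℝ} (ha1 : 1 < a)
    (ha : a ^ 2 * m = 2 * (m + 1)) (z : E (m + 1)) :
    ∑ c, ‖K (S c) (a - 2) (a - 2) z‖ ^ 2 = (m + 1) * a ^ 2 * (‖z‖ ^ (a - 1)) ^ 2 := by
  by_cases hz : z = 0
  · subst hz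
    have : (0 : ℝ) ^ (a - 1) = 0 := Real.zero_rpow (by linarith)
    simp [K_zero, this]
  have hr : 0 < ‖z‖ := norm_pos_iff.2 hz
  simp_rw [normsq_K _ _ hz]
  rw [← Finset.mul_sum, Finset.sum_add_distrib, Finset.sum_add_distrib, ← Finset.mul_sum,
    ← Finset.mul_sum, ← Finset.mul_sum, hE.sq, hE.gr]
  have h1 : a - 1 = (a - 2) + 1 := by ring
  rw [h1, Real.rpow_add hr, Real.rpow_one]
  push_cast
  field_simp
  nlinarith [ha]

/-- the differential of the map on the ball, times a power of its norm -/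
theorem rpow_smul_K (S : Fin (m + 1) → Fin (m + 1) → ℝ) {a : ℝ} (hm : 1 ≤ m) (z : E (m + 1)) :
    (‖z‖ ^ (a - 1)) ^ (m - 1) • K S (a - 2) (a - 2) z = K S ((a - 1) * m - 1) (a - 2) z := by
  by_cases hz : z = 0
  · subst hz
    rw [K_zero, K_zero, smul_zero]
  have hr : 0 < ‖z‖ := norm_pos_iff.2 hz
  have h1 : (‖z‖ ^ (a - 1)) ^ (m - 1) = ‖z‖ ^ ((a - 1) * (m - 1)) := by
    rw [← Real.rpow_mul_natCast hr.le]
    congr 2
    rw [Nat.cast_sub hm]
    simp
  rw [h1]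
  unfold K
  rw [smul_add, smul_smul, smul_smul]
  congr 2
  · rw [← mul_assoc, mul_left_comm (‖z‖ ^ ((a - 1) * (m - 1))) (a - 2), ← Real.rpow_add hr]
    congr 3
    ring
  · rw [mul_left_comm, ← Real.rpow_add hr]
    congr 2
    ring

/-! ### the map -/

/-- the map `ω` -/
noncomputable def om (S : Fin d → Fin (m + 1) → Fin (m + 1) → ℝ) (a : ℝ) (x : E (m + 1))
    (c : Fin d) : ℝ := ‖Mo x‖ ^ (a - 2) * qf (S c) (Mo x)

/-- its differential -/
noncomputable def dom (S : Fin d → Fin (m + 1) → Fin (m + 1) → ℝ) (a : ℝ) (x : E (m + 1))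
    (c : Fin d) : E (m + 1) := (2 / PP x) • Rf x (K (S c) (a - 2) (a - 2) (Mo x))

theorem last_add_en (x : E (m + 1)) : (x + en m) (Fin.last m) = x (Fin.last m) + 1 := by
  simp [en]

theorem PP_pos {x : E (m + 1)} (hx : x ∈ Um m) : 0 < PP x := by
  unfold PP
  have h1 : x + en m ≠ 0 := by
    intro h
    have h2 := congrArg (fun v : E (m + 1) => v (Fin.last m)) h
    simp only [last_add_en] at h2
    have h3 : (-1 : ℝ) < x (Fin.last m) := hx
    have h4 : x (Fin.last m) + 1 = 0 := by simpa using h2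
    linarith
  have := norm_pos_iff.2 h1
  positivity

theorem continuous_PP : Continuous (PP (m := m)) := by
  unfold PP
  fun_prop

theorem continuousOn_inv_PP : ContinuousOn (fun x : E (m + 1) => 2 / PP x) (Um m) :=
  continuousOn_const.div continuous_PP.continuousOn fun _ hx => (PP_pos hx).ne'

theorem continuousOn_Mo : ContinuousOn (Mo (m := m)) (Um m) := by
  unfold Mo
  exact (continuousOn_inv_PP.smul (by fun_prop)).sub continuousOn_const

theorem continuousOn_Rf {G : E (m + 1) → E (m + 1)} (hG : ContinuousOn G (Um m)) :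
    ContinuousOn (fun x => Rf x (G x)) (Um m) := by
  unfold Rf
  refine hG.sub (ContinuousOn.smul (continuousOn_inv_PP.mul ?_) (by fun_prop))
  exact ContinuousOn.inner (𝕜 := ℝ) (by fun_prop) hG

theorem continuousOn_dom (hk : StmtKcont) {a : ℝ} (ha1 : 1 < a) (c : Fin d) :
    ContinuousOn (fun x => dom S a x c) (Um m) := by
  unfold dom
  refine continuousOn_inv_PP.smul (continuousOn_Rf ?_)
  exact (hk (m + 1) (S c) (a - 2) (a - 2) (by linarith)).comp_continuousOn continuousOn_Mo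

theorem hasFDerivAt_om (hE : Eig (m + 1) d S) (hgr : StmtGrad) (hch : StmtChain) {a : ℝ}
    (ha1 : 1 < a) (c : Fin d) {x : E (m + 1)} (hx : x ∈ Um m) :
    HasFDerivAt (fun z => om S a z c) (innerSL ℝ (dom S a x c)) x :=
  hch m x hx (fun z => ‖z‖ ^ (a - 2) * qf (S c) z) _ (hgr (m + 1) (S c) (hE.symm c) a ha1 (Mo x))

theorem contDiffOn_om (hE : Eig (m + 1) d S) (hgr : StmtGrad) (hch : StmtChain) (hk : StmtKcont)
    {a : ℝ} (ha1 : 1 < a) (c : Fin d) : ContDiffOn ℝ 1 (fun z => om S a z c) (Um m) := by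
  rw [show (1 : WithTop ℕ∞) = 0 + 1 by norm_num, contDiffOn_succ_iff_fderiv_of_isOpen (isOpen_Um m)]
  refine ⟨fun x hx => (hasFDerivAt_om hE hgr hch ha1 c hx).differentiableAt.differentiableWithinAt,
    by simp, contDiffOn_zero.2 ?_⟩
  have h1 : ContinuousOn (fun x => innerSL ℝ (dom S a x c)) (Um m) :=
    (innerSL ℝ).continuous.comp_continuousOn (continuousOn_dom hk ha1 c)
  refine h1.congr fun x hx => ?_
  exact (hasFDerivAt_om hE hgr hch ha1 c hx).fderiv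

theorem hs_dom (hE : Eig (m + 1) d S) (hbd : StmtBdry) {a : ℝ} (ha1 : 1 < a)
    (ha : a ^ 2 * m = 2 * (m + 1)) {x : E (m + 1)} (hx : x ∈ Um m) :
    hs (dom S a x) = Real.sqrt (m + 1) * a * (2 / PP x) * ‖Mo x‖ ^ (a - 1) := by
  have hP := PP_pos hx
  unfold hs dom
  have h1 : ∀ c, ‖(2 / PP x) • Rf x (K (S c) (a - 2) (a - 2) (Mo x))‖ ^ 2 =
      (2 / PP x) ^ 2 * ‖K (S c) (a - 2) (a - 2) (Mo x)‖ ^ 2 := by
    intro c
    rw [norm_smul, (hbd m x hx).1, mul_pow, Real.norm_eq_abs, sq_abs]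
  simp_rw [h1]
  rw [← Finset.mul_sum, sum_normsq_K hE ha1 ha]
  have h2 : (2 / PP x) ^ 2 * (((m : ℝ) + 1) * a ^ 2 * (‖Mo x‖ ^ (a - 1)) ^ 2) =
      ((m : ℝ) + 1) * (a * (2 / PP x) * ‖Mo x‖ ^ (a - 1)) ^ 2 := by ring
  have h3 : 0 ≤ a * (2 / PP x) * ‖Mo x‖ ^ (a - 1) := by
    have := Real.rpow_nonneg (norm_nonneg (Mo x)) (a - 1)
    have : 0 < a := by linarith
    positivity
  rw [h2, Real.sqrt_mul (by positivity), Real.sqrt_sq h3]
  ring

/-- the field of the weak equation is a multiple of the Piola transform of a field on the ball -/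
theorem hs_smul_dom (hE : Eig (m + 1) d S) (hbd : StmtBdry) (hm : 1 ≤ m) {a : ℝ} (ha1 : 1 < a)
    (ha : a ^ 2 * m = 2 * (m + 1)) {x : E (m + 1)} (hx : x ∈ Um m) (c : Fin d) :
    hs (dom S a x) ^ (m - 1) • dom S a x c =
      ((Real.sqrt (m + 1) * a) ^ (m - 1) * 2 ^ m) • Pi (K (S c) ((a - 1) * m - 1) (a - 2)) x := by
  have hRs : ∀ (t : ℝ) (w : E (m + 1)), Rf x (t • w) = t • Rf x w := by
    intro t w
    unfold Rf
    rw [inner_smul_right, smul_sub, smul_smul]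
    congr 2
    ring
  rw [hs_dom hE hbd ha1 ha hx]
  unfold dom Pi
  rw [← rpow_smul_K (S c) hm (Mo x), hRs, smul_smul, smul_smul, smul_smul]
  congr 1
  rw [mul_pow, mul_pow]
  obtain ⟨k, rfl⟩ : ∃ k, m = k + 1 := ⟨m - 1, by omega⟩
  simp only [Nat.add_sub_cancel]
  rw [div_pow, div_pow, one_pow, pow_succ, pow_succ]
  have := (PP_pos hx).ne'
  field_simp

end Pool.Agent.T6.H20.BU
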