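import Pool.Agent.T6.H20.BU.Defs

/-!
# Bubbles on the half-space (MP_138ac9_an): definitions

`n = m + 1` throughout.
-/

set_option autoImplicit false

namespace Pool.Agent.T6.H20.BU

open MeasureTheory

/-- The real function `f` on the half-space is weakly differentiable with gradient `G` and has the
trace `τ` on the boundary: `f` and `G` are integrable on bounded sets, `τ` is locally integrable, and
Green's formula `∫ (f ∂_j φ + G_j φ) = ∫_{∂} τ φ ν_j` (`ν = - e_n`) holds for all `φ` of class `C¹`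
with compact support in `ℝⁿ`.  (With `φ` supported in the open half-space this says that `G` is the
distributional gradient of `f`; in general it identifies the trace.) -/
structure WeakDiff (m : ℕ) (f : E (m + 1) → ℝ) (G : E (m + 1) → E (m + 1)) (τ : E m → ℝ) :
    Prop where
  f_int : ∀ R : ℝ, IntegrableOn f (half m ∩ Metric.ball 0 R)
  G_int : ∀ R : ℝ, IntegrableOn G (half m ∩ Metric.ball 0 R)
  t_int : LocallyIntegrable τ
  green : ∀ φ : E (m + 1) → ℝ, ContDiff ℝ 1 φ → HasCompactSupport φ → ∀ j : Fin (m + 1),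
    ∫ x in half m, (f x * pd φ j x + G x j * φ x) =
      if j = Fin.last m then -∫ y : E m, τ y * φ (bd y) else 0

/-- the Hilbert-Schmidt norm of the differential with rows `A c` (the gradients of the
components) -/
noncomputable def hs {n d : ℕ} (A : Fin d → E n) : ℝ := Real.sqrt (∑ c, ‖A c‖ ^ 2)

/-- `Φ` is a test map for a bubble with the trace `τ`: `Φ ∈ W^{1,n}(ℝⁿ₊; ℝᵈ)`, with the weak
differential `B` and the trace `σ`, the support of `Φ` is bounded and `Φ · ω = 0` almost everywhere on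
the boundary. -/
structure IsTest (m d : ℕ) (τ : E m → Fin d → ℝ) (Φ : E (m + 1) → Fin d → ℝ)
    (B : E (m + 1) → Fin d → E (m + 1)) (σ : E m → Fin d → ℝ) : Prop where
  diff : ∀ c, WeakDiff m (fun x => Φ x c) (fun x => B x c) (fun y => σ y c)
  val : ∀ c, MemLp (fun x => Φ x c) (m + 1) (volume.restrict (half m))
  grad : ∀ c, MemLp (fun x => B x c) (m + 1) (volume.restrict (half m))
  supp : ∃ R : ℝ, ∀ᵐ x : E (m + 1), x ∈ half m → R ≤ ‖x‖ → ∀ c, Φ x c = 0
  bdry : ∀ᵐ y : E m, ∑ c, σ y c * τ y c = 0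

/-- `⟨|dω|^(n-2) dω, dΦ⟩`, `A = dω`, `B = dΦ` -/
noncomputable def pair (m : ℕ) {n d : ℕ} (A B : Fin d → E n) : ℝ :=
  hs A ^ (m - 1) * ∑ c, inner ℝ (A c) (B c)

/-- The map `ω` of the half-space of `ℝⁿ`, `n = m + 1`, to `ℝᵈ`, with the differential `A` and the
trace `τ`, is a bubble. -/
structure IsBubble (m d : ℕ) (ω : E (m + 1) → Fin d → ℝ) (A : E (m + 1) → Fin d → E (m + 1))
    (τ : E m → Fin d → ℝ) : Prop where
  /-- `A` is the weak differential and `τ` the trace of `ω` -/
  diff : ∀ c, WeakDiff m (fun x => ω x c) (fun x => A x c) (fun y => τ y c)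
  /-- `ω` is in `L^n` of bounded sets -/
  loc : ∀ c, ∀ R : ℝ, MemLp (fun x => ω x c) (m + 1) (volume.restrict (half m ∩ Metric.ball 0 R))
  /-- `∫ |dω|ⁿ < ∞` -/
  energy : IntegrableOn (fun x => hs (A x) ^ (m + 1)) (half m)
  /-- `|ω| = 1` on the boundary -/
  unit : ∀ᵐ y : E m, ∑ c, τ y c ^ 2 = 1
  /-- `∫ ⟨|dω|^(n-2) dω, dΦ⟩ = 0` for all `Φ ∈ W^{1,n}` with bounded support and `Φ · ω = 0` on the
  boundary -/
  weak : ∀ (Φ : E (m + 1) → Fin d → ℝ) (B : E (m + 1) → Fin d → E (m + 1)) (σ : E m → Fin d → ℝ),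
    IsTest m d τ Φ B σ → IntegrableOn (fun x => pair m (A x) (B x)) (half m) ∧
      ∫ x in half m, pair m (A x) (B x) = 0

/-- the map with the differential `A` is weakly conformal: `dωᵀ dω = |dω|² / n` almost everywhere -/
def IsConformal (m d : ℕ) (A : E (m + 1) → Fin d → E (m + 1)) : Prop :=
  ∀ᵐ x : E (m + 1), x ∈ half m → ∀ i j : Fin (m + 1),
    ∑ c, A x c i * A x c j = if i = j then hs (A x) ^ 2 / (m + 1) else 0

end Pool.Agent.T6.H20.BU
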