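import Pool.Agent.T6.H20.BU.Bub

set_option autoImplicit false

namespace Pool.Agent.T6.H20.BU

open MeasureTheory Filter Topology

theorem cut_contDiff {n : ℕ} {U : Set (E n)} (hU : IsOpen U) {χ F : E n → ℝ}
    (hχ : ContDiff ℝ 1 χ) (hs : tsupport χ ⊆ U) (hF : ContDiffOn ℝ 1 F U) :
    ContDiff ℝ 1 (fun x => χ x * F x) := by
  rw [contDiff_iff_contDiffAt]
  intro x
  by_cases hx : x ∈ tsupport χ
  · exact hχ.contDiffAt.mul (hF.contDiffAt (hU.mem_nhds (hs hx)))
  · have h1 : χ =ᶠ[𝓝 x] 0 := notMem_tsupport_iff_eventuallyEq.1 hx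
    have h2 : (fun x => χ x * F x) =ᶠ[𝓝 x] fun _ => 0 := by
      filter_upwards [h1] with z hz
      simp [hz]
    exact (contDiffAt_const).congr_of_eventuallyEq h2

theorem pd_congr {n : ℕ} {f g : E n → ℝ} {x : E n} (h : f =ᶠ[𝓝 x] g) (j : Fin n) :
    pd f j x = pd g j x := by
  unfold pd
  rw [h.fderiv_eq]

/-- the neighbourhood `x_n > -1` of the closed half-space -/
def Um (m : ℕ) : Set (E (m + 1)) := {x | -1 < x (Fin.last m)}

theorem isOpen_Um (m : ℕ) : IsOpen (Um m) := by
  apply isOpen_lt continuous_const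
  exact (EuclideanSpace.proj (𝕜 := ℝ) (Fin.last m)).continuous

theorem isOpen_half (m : ℕ) : IsOpen (half m) := by
  apply isOpen_lt continuous_const
  exact (EuclideanSpace.proj (𝕜 := ℝ) (Fin.last m)).continuous

theorem half_sub_Um (m : ℕ) : half m ⊆ Um m := by
  intro x hx
  have h : 0 < x (Fin.last m) := hx
  change (-1 : ℝ) < x (Fin.last m)
  linarith

theorem bd_last {m : ℕ} (y : E m) : bd y (Fin.last m) = 0 := by
  simp [bd]

theorem bd_mem_Um {m : ℕ} (y : E m) : bd y ∈ Um m := by
  change (-1 : ℝ) < bd y (Fin.last m)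
  rw [bd_last]
  norm_num

theorem continuous_bd {m : ℕ} : Continuous (bd (m := m)) := by
  unfold bd
  refine (PiLp.continuous_toLp 2 _).comp ?_
  refine continuous_pi fun i => ?_
  refine Fin.lastCases ?_ (fun i => ?_) i
  · simp only [Fin.snoc_last]
    exact continuous_const
  · simp only [Fin.snoc_castSucc]
    exact (EuclideanSpace.proj (𝕜 := ℝ) i).continuous

/-- a smooth function, `1` for `x_n ≥ -1/4`, `0` for `x_n ≤ -1/2` -/
noncomputable def zeta {m : ℕ} (x : E (m + 1)) : ℝ :=
  Real.smoothTransition (4 * x (Fin.last m) + 2)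

theorem contDiff_zeta {m : ℕ} {k : ℕ∞} : ContDiff ℝ k (zeta (m := m)) := by
  unfold zeta
  refine Real.smoothTransition.contDiff.comp ?_
  refine ContDiff.add (contDiff_const.mul ?_) contDiff_const
  exact (EuclideanSpace.proj (𝕜 := ℝ) (Fin.last m)).contDiff

theorem zeta_eq_one {m : ℕ} {x : E (m + 1)} (hx : -(1 / 4) ≤ x (Fin.last m)) : zeta x = 1 :=
  Real.smoothTransition.one_of_one_le (by linarith)

theorem tsupport_zeta {m : ℕ} : tsupport (zeta (m := m)) ⊆ Um m := by
  have h1 : tsupport (zeta (m := m)) ⊆ {x | -(1 / 2) ≤ x (Fin.last m)} := by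
    apply closure_minimal
    · intro x hx
      rw [Function.mem_support] at hx
      change -(1 / 2 : ℝ) ≤ x (Fin.last m)
      by_contra h
      rw [not_le] at h
      exact hx (Real.smoothTransition.zero_of_nonpos (by linarith))
    · apply isClosed_le continuous_const
      exact (EuclideanSpace.proj (𝕜 := ℝ) (Fin.last m)).continuous
  intro x hx
  have : -(1 / 2) ≤ x (Fin.last m) := h1 hx
  change (-1 : ℝ) < x (Fin.last m)
  linarith

theorem zeta_near {m : ℕ} {x : E (m + 1)} (hx : 0 ≤ x (Fin.last m)) : ∀ᶠ z in 𝓝 x, zeta z = 1 := by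
  have h1 : IsOpen {z : E (m + 1) | -(1 / 4) < z (Fin.last m)} := by
    apply isOpen_lt continuous_const
    exact (EuclideanSpace.proj (𝕜 := ℝ) (Fin.last m)).continuous
  have h2 : x ∈ {z : E (m + 1) | -(1 / 4) < z (Fin.last m)} := by
    change -(1 / 4 : ℝ) < x (Fin.last m)
    linarith
  filter_upwards [h1.mem_nhds h2] with z hz
  exact zeta_eq_one (le_of_lt hz)

theorem continuous_pd {n : ℕ} {g : E n → ℝ} (hg : ContDiff ℝ 1 g) (j : Fin n) :
    Continuous (pd g j) := by
  unfold pd
  exact (hg.continuous_fderiv one_ne_zero).clm_apply continuous_const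

theorem hasCompactSupport_pd {n : ℕ} {g : E n → ℝ} (hg : HasCompactSupport g) (j : Fin n) :
    HasCompactSupport (pd g j) := by
  have h1 := hg.fderiv (𝕜 := ℝ)
  refine h1.mono ?_
  intro x hx
  rw [Function.mem_support] at hx ⊢
  intro h
  apply hx
  unfold pd
  rw [h]
  simp

/-- Green's formula for a function which is `C¹` near the closed half-space. -/
theorem weakDiff_of_contDiff (hG : StmtGreen) {m : ℕ} {f : E (m + 1) → ℝ} {G : E (m + 1) → E (m + 1)}
    (hf : ContDiffOn ℝ 1 f (Um m)) (hGr : ∀ x ∈ Um m, HasFDerivAt f (innerSL ℝ (G x)) x)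
    (hGc : ContinuousOn G (Um m)) : WeakDiff m f G (fun y => f (bd y)) := by
  have hcomp : ∀ R : ℝ, ∃ K : Set (E (m + 1)), IsCompact K ∧ K ⊆ Um m ∧
      half m ∩ Metric.ball 0 R ⊆ K := by
    intro R
    refine ⟨{x | 0 ≤ x (Fin.last m)} ∩ Metric.closedBall 0 R, ?_, ?_, ?_⟩
    · refine (isCompact_closedBall _ _).inter_left ?_
      apply isClosed_le continuous_const
      exact (EuclideanSpace.proj (𝕜 := ℝ) (Fin.last m)).continuous
    · rintro x ⟨hx, -⟩
      have : 0 ≤ x (Fin.last m) := hx
      change (-1 : ℝ) < x (Fin.last m)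
      linarith
    · rintro x ⟨hx, hx'⟩
      have h : 0 < x (Fin.last m) := hx
      exact ⟨h.le, Metric.ball_subset_closedBall hx'⟩
  have hfc : Continuous fun y : E m => f (bd y) :=
    hf.continuousOn.comp_continuous continuous_bd bd_mem_Um
  refine ⟨fun R => ?_, fun R => ?_, hfc.locallyIntegrable, fun φ hφ hφc j => ?_⟩
  · obtain ⟨K, hK, hKU, hsub⟩ := hcomp R
    exact (((hf.continuousOn).mono hKU).integrableOn_compact hK).mono_set hsub
  · obtain ⟨K, hK, hKU, hsub⟩ := hcomp R
    exact ((hGc.mono hKU).integrableOn_compact hK).mono_set hsub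
  · have hg : ContDiff ℝ 1 (fun x => zeta x * (f x * φ x)) := by
      refine cut_contDiff (isOpen_Um m) (contDiff_zeta (k := 1)) tsupport_zeta ?_
      exact hf.mul hφ.contDiffOn
    have hgc : HasCompactSupport (fun x => zeta x * (f x * φ x)) := by
      refine hφc.mono ?_
      intro x hx
      rw [Function.mem_support] at hx ⊢
      intro h
      apply hx
      simp [h]
    have key := hG m _ hg hgc j
    have h1 : ∫ x in half m, pd (fun x => zeta x * (f x * φ x)) j x =
        ∫ x in half m, (f x * pd φ j x + G x j * φ x) := by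
      refine setIntegral_congr_fun (isOpen_half m).measurableSet ?_
      intro x hx
      have hx0 : 0 < x (Fin.last m) := hx
      have e1 : (fun x => zeta x * (f x * φ x)) =ᶠ[𝓝 x] fun x => f x * φ x := by
        filter_upwards [zeta_near hx0.le] with z hz
        rw [hz, one_mul]
      show pd (fun x => zeta x * (f x * φ x)) j x = _
      rw [pd_congr e1]
      unfold pd
      have h2 := (hGr x (half_sub_Um m hx)).mul
        ((hφ.differentiable one_ne_zero).differentiableAt (x := x)).hasFDerivAt
      have h3 : fderiv ℝ (fun x => f x * φ x) x = _ := h2.fderiv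
      rw [h3]
      simp [innerSL_apply_apply, EuclideanSpace.inner_single_right]
      ring
    rw [h1] at key
    rw [key]
    split_ifs with hj
    · congr 1
      refine integral_congr_ae (Eventually.of_forall fun y => ?_)
      show zeta (bd y) * (f (bd y) * φ (bd y)) = _
      rw [zeta_eq_one (by rw [bd_last]; norm_num), one_mul]
    · rfl

end Pool.Agent.T6.H20.BU
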