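import Mathlib

/-!
# Free-boundary `n`-harmonic maps of the half-space: definitions and module statements (MP_138ac9_an)

Project BU (helper20).  Everything is for `n = m + 1`.
-/

set_option autoImplicit false

namespace Pool.Agent.T6.H20.BU

open MeasureTheory

/-- the Euclidean space `ℝⁿ` -/
abbrev E (n : ℕ) : Type := EuclideanSpace ℝ (Fin n)

/-- the open half-space `x_n > 0` of `ℝⁿ`, `n = m + 1` -/
def half (m : ℕ) : Set (E (m + 1)) := {x | 0 < x (Fin.last m)}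

/-- the boundary point `(y, 0)` of the half-space -/
noncomputable def bd {m : ℕ} (y : E m) : E (m + 1) :=
  WithLp.toLp 2 (Fin.snoc (α := fun _ => ℝ) (fun i => y i) 0)

/-- the last unit vector -/
noncomputable def en (m : ℕ) : E (m + 1) := EuclideanSpace.single (Fin.last m) 1

/-- the partial derivative `∂ g / ∂ x_j` at `x` -/
noncomputable def pd {n : ℕ} (g : E n → ℝ) (j : Fin n) (x : E n) : ℝ :=
  fderiv ℝ g x (EuclideanSpace.single j 1)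

/-- MODULE GRN.  The divergence theorem on the half-space. -/
def StmtGreen : Prop :=
  ∀ (m : ℕ) (g : E (m + 1) → ℝ), ContDiff ℝ 1 g → HasCompactSupport g → ∀ j : Fin (m + 1),
    ∫ x in half m, pd g j x = if j = Fin.last m then -∫ y : E m, g (bd y) else 0

/-- the quadratic form `∑ S_ij x_i x_j` -/
def qf {n : ℕ} (S : Fin n → Fin n → ℝ) (x : E n) : ℝ := ∑ i, ∑ j, S i j * x i * x j

/-- the vector `S x` -/
noncomputable def mv {n : ℕ} (S : Fin n → Fin n → ℝ) (x : E n) : E n :=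
  WithLp.toLp 2 (fun i => ∑ j, S i j * x j)

/-- the family `S` of symmetric matrices of trace `0` is an eigenmap `h : S^(n-1) → S^(d-1)` of
degree two, `h_c(x) = qf (S c) x`, which is not homothetic. -/
structure Eig (n d : ℕ) (S : Fin d → Fin n → Fin n → ℝ) : Prop where
  symm : ∀ c i j, S c i j = S c j i
  tr : ∀ c, ∑ i, S c i i = 0
  sq : ∀ x : E n, ∑ c, qf (S c) x ^ 2 = ‖x‖ ^ 4
  gr : ∀ x : E n, ∑ c, ‖mv (S c) x‖ ^ 2 = ((n : ℝ) + 2) / 2 * ‖x‖ ^ 2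
  non : ∃ x v : E n, ‖x‖ = 1 ∧ ‖v‖ = 1 ∧ inner ℝ x v = 0 ∧
    ∑ c, (2 * inner ℝ v (mv (S c) x)) ^ 2 ≠ 2 * (n : ℝ) / ((n : ℝ) - 1)

/-- MODULE EIG.  With `α² = n / (n - 1)` take the components `α (x_i x_j - δ_ij |x|² / n)`, `(i, j)`
all ordered pairs, with the changes (indices `0 1 2 3`): `(0,1), (1,0)`: `α (x₀ x₁ + x₂ x₃)`;
`(0,2), (2,0)`: `α (x₀ x₂ - x₁ x₃)`; `(2,3), (3,2), (1,3), (3,1)`: `0`.  For `non`:
`x = (1,1,1,1,0,…)/2`, `v = (1,-1,1,-1,0,…)/2`; the sum there is `2n/(n-1) + n/(n-1)`. -/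
def StmtEig : Prop := ∀ n : ℕ, 4 ≤ n → ∃ d : ℕ, 2 ≤ d ∧ ∃ S : Fin d → Fin n → Fin n → ℝ, Eig n d S

/-- the homogeneous vector field `b |x|^(p-2) q(x) x + 2 |x|^p S x`, `q(x) = ⟨S x, x⟩` -/
noncomputable def K {n : ℕ} (S : Fin n → Fin n → ℝ) (p b : ℝ) (x : E n) : E n :=
  (b * ‖x‖ ^ (p - 2) * qf S x) • x + (2 * ‖x‖ ^ p) • mv S x

/-- MODULE HOM, part 1: the gradient of `|x|^(a-2) q(x)` is `K S (a-2) (a-2)`, also at `0`. -/
def StmtGrad : Prop :=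
  ∀ (n : ℕ) (S : Fin n → Fin n → ℝ), (∀ i j, S i j = S j i) → ∀ a : ℝ, 1 < a → ∀ x : E n,
    HasFDerivAt (fun z : E n => ‖z‖ ^ (a - 2) * qf S z) (innerSL ℝ (K S (a - 2) (a - 2) x)) x

/-- MODULE HOM, part 2: `K S p b` is continuous for `p > -1`. -/
def StmtKcont : Prop :=
  ∀ (n : ℕ) (S : Fin n → Fin n → ℝ) (p b : ℝ), -1 < p → Continuous (K S p b)

/-- MODULE HOM, part 3: `K S p b` is continuously differentiable for `p > 0`. -/
def StmtKdiff : Prop :=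
  ∀ (n : ℕ) (S : Fin n → Fin n → ℝ) (p b : ℝ), 0 < p → ContDiff ℝ 1 (K S p b)

/-- MODULE HOM, part 4: `div (K S p b) = (b (p + n) + 2 p) |x|^(p-2) q(x)`, for `p > 0`. -/
def StmtKdiv : Prop :=
  ∀ (n : ℕ) (S : Fin n → Fin n → ℝ) (p b : ℝ), (∀ i j, S i j = S j i) → ∑ i, S i i = 0 → 0 < p →
    b * (p + n) + 2 * p = 0 →
      ∀ x : E n, ∑ j, fderiv ℝ (K S p b) x (EuclideanSpace.single j 1) j = 0

/-- `|x + e_n|²` -/
noncomputable def PP {m : ℕ} (x : E (m + 1)) : ℝ := ‖x + en m‖ ^ 2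

/-- the Moebius map `x ↦ 2 (x + e_n) / |x + e_n|² - e_n` of the half-space onto the unit ball -/
noncomputable def Mo {m : ℕ} (x : E (m + 1)) : E (m + 1) := (2 / PP x) • (x + en m) - en m

/-- the reflection `I - 2 y yᵀ / |y|²`, `y = x + e_n`, applied to `w` -/
noncomputable def Rf {m : ℕ} (x w : E (m + 1)) : E (m + 1) :=
  w - (2 / PP x * inner ℝ (x + en m) w) • (x + en m)

/-- the field `|y|^(-2m) R (W (M x))`, `y = x + e_n` (`m = n - 1`) -/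
noncomputable def Pi {m : ℕ} (W : E (m + 1) → E (m + 1)) (x : E (m + 1)) : E (m + 1) :=
  (1 / PP x) ^ m • Rf x (W (Mo x))

/-- MODULE INV, part 1: chain rule for the Moebius map. -/
def StmtChain : Prop :=
  ∀ (m : ℕ) (x : E (m + 1)), -1 < x (Fin.last m) → ∀ (u : E (m + 1) → ℝ) (g : E (m + 1)),
    HasFDerivAt u (innerSL ℝ g) (Mo x) →
      HasFDerivAt (fun z => u (Mo z)) (innerSL ℝ ((2 / PP x) • Rf x g)) x

/-- MODULE INV, part 2: `Pi W` is `C¹` on `x_n > -1`. -/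
def StmtPiC1 : Prop :=
  ∀ (m : ℕ) (W : E (m + 1) → E (m + 1)), ContDiff ℝ 1 W →
    ContDiffOn ℝ 1 (Pi W) {x : E (m + 1) | -1 < x (Fin.last m)}

/-- MODULE INV, part 3: `Pi W` (Piola transform) is divergence free if `W` is. -/
def StmtPiola : Prop :=
  ∀ (m : ℕ) (W : E (m + 1) → E (m + 1)), ContDiff ℝ 1 W →
    (∀ z, ∑ j, fderiv ℝ W z (EuclideanSpace.single j 1) j = 0) →
      ∀ x : E (m + 1), -1 < x (Fin.last m) →
        ∑ j, fderiv ℝ (Pi W) x (EuclideanSpace.single j 1) j = 0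

/-- MODULE INV, part 4: norms, and the boundary. -/
def StmtBdry : Prop :=
  ∀ (m : ℕ) (x : E (m + 1)), -1 < x (Fin.last m) →
    (∀ w : E (m + 1), ‖Rf x w‖ = ‖w‖) ∧
    (∀ v w : E (m + 1), inner ℝ (Rf x v) w = inner ℝ v (Rf x w)) ∧
    (∀ w : E (m + 1), Rf x (Rf x w) = w) ∧
    (0 ≤ x (Fin.last m) → ‖Mo x‖ ≤ 1) ∧
    (x (Fin.last m) = 0 → ‖Mo x‖ = 1 ∧ ∀ w : E (m + 1), Rf x w (Fin.last m) = -inner ℝ (Mo x) w)

end Pool.Agent.T6.H20.BU
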