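import Pool.Agent.T6.H20.BU.Asm

set_option autoImplicit false

namespace Pool.Agent.T6.H20.BU

open MeasureTheory Filter Topology

variable {m d : ℕ} {S : Fin d → Fin (m + 1) → Fin (m + 1) → ℝ}

theorem bd_mem_closed {m : ℕ} (y : E m) : -1 < bd y (Fin.last m) := bd_mem_Um y

theorem PP_lower {x : E (m + 1)} (hx : x ∈ half m) : 1 + ‖x‖ ^ 2 ≤ PP x := by
  have hx0 : 0 < x (Fin.last m) := hx
  unfold PP en
  rw [norm_add_sq_real, EuclideanSpace.inner_single_right]
  simp
  linarith

theorem om_sq (hE : Eig (m + 1) d S) {a : ℝ} {x : E (m + 1)} (hx : ‖Mo x‖ = 1) :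
    ∑ c, om S a x c ^ 2 = 1 := by
  unfold om
  simp only [hx, Real.one_rpow, one_mul]
  rw [hE.sq, hx, one_pow]

theorem bubble (hG : StmtGreen) (hE : Eig (m + 1) d S) (hgr : StmtGrad) (hkc : StmtKcont)
    (hkd : StmtKdiff) (hkdiv : StmtKdiv) (hch : StmtChain) (hpc : StmtPiC1) (hpi : StmtPiola)
    (hbd : StmtBdry) (hm : 1 ≤ m) {a : ℝ} (ha1 : 1 < a) (ha : a ^ 2 * m = 2 * (m + 1))
    (hp : 0 < (a - 1) * m - 1) :
    IsBubble m d (om S a) (dom S a) (fun y c => om S a (bd y) c) := by
  have hW : ∀ c, WeakDiff m (fun x => om S a x c) (fun x => dom S a x c)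
      (fun y => om S a (bd y) c) := fun c =>
    weakDiff_of_contDiff hG (contDiffOn_om hE hgr hch hkc ha1 c)
      (fun x hx => hasFDerivAt_om hE hgr hch ha1 c hx) (continuousOn_dom hkc ha1 c)
  refine ⟨hW, ?_, ?_, ?_, ?_⟩
  · intro c R
    have hK : IsCompact ({x : E (m + 1) | 0 ≤ x (Fin.last m)} ∩ Metric.closedBall 0 R) := by
      refine (isCompact_closedBall _ _).inter_left ?_
      apply isClosed_le continuous_const
      exact (EuclideanSpace.proj (𝕜 := ℝ) (Fin.last m)).continuous
    have hKU : {x : E (m + 1) | 0 ≤ x (Fin.last m)} ∩ Metric.closedBall 0 R ⊆ Um m := by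
      rintro x ⟨hx, -⟩
      have : 0 ≤ x (Fin.last m) := hx
      change (-1 : ℝ) < x (Fin.last m)
      linarith
    obtain ⟨C, hC⟩ := hK.exists_bound_of_continuousOn
      ((contDiffOn_om hE hgr hch hkc ha1 c).continuousOn.mono hKU)
    have hfin : IsFiniteMeasure (volume.restrict (half m ∩ Metric.ball (0 : E (m + 1)) R)) := by
      refine ⟨?_⟩
      rw [Measure.restrict_apply_univ]
      exact lt_of_le_of_lt (measure_mono Set.inter_subset_right) measure_ball_lt_top
    refine MemLp.of_bound ((hW c).f_int R).aestronglyMeasurable C ?_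
    rw [ae_restrict_iff' ((isOpen_half m).measurableSet.inter measurableSet_ball)]
    refine Eventually.of_forall ?_
    rintro x ⟨hx, hx'⟩
    have h0 : 0 < x (Fin.last m) := hx
    exact hC x ⟨h0.le, Metric.ball_subset_closedBall hx'⟩
  · -- finite energy
    have hmeas : AEStronglyMeasurable (fun x => hs (dom S a x) ^ (m + 1))
        (volume.restrict (half m)) := by
      have h1 : ContinuousOn (fun x => hs (dom S a x) ^ (m + 1)) (half m) := by
        refine ContinuousOn.pow ?_ _
        unfold hs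
        refine Real.continuous_sqrt.comp_continuousOn ?_
        refine continuousOn_finsetSum _ fun c _ => ?_
        exact (((continuousOn_dom hkc ha1 c).mono (half_sub_Um m)).norm).pow 2
      exact h1.aestronglyMeasurable (isOpen_half m).measurableSet
    have hint : Integrable (fun x : E (m + 1) =>
        (2 * Real.sqrt (m + 1) * a) ^ (m + 1) * (1 + ‖x‖ ^ 2) ^ (-(2 * ((m : ℝ) + 1)) / 2)) := by
      refine (integrable_rpow_neg_one_add_norm_sq ?_).const_mul _
      rw [finrank_euclideanSpace_fin]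
      push_cast
      have : (0 : ℝ) ≤ m := Nat.cast_nonneg m
      linarith
    refine Integrable.mono' hint.integrableOn hmeas ?_
    rw [ae_restrict_iff' (isOpen_half m).measurableSet]
    refine Eventually.of_forall fun x hx => ?_
    have hxU := half_sub_Um m hx
    have hP := PP_pos hxU
    have hP1 := PP_lower hx
    have hM := (hbd m x hxU).2.2.2.1 (le_of_lt hx)
    have h1 : ‖Mo x‖ ^ (a - 1) ≤ 1 := Real.rpow_le_one (norm_nonneg _) hM (by linarith)
    have h0 : 0 ≤ ‖Mo x‖ ^ (a - 1) := Real.rpow_nonneg (norm_nonneg _) _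
    rw [hs_dom hE hbd ha1 ha hxU]
    have h2 : 0 ≤ Real.sqrt (m + 1) * a * (2 / PP x) * ‖Mo x‖ ^ (a - 1) := by
      have : 0 < a := by linarith
      positivity
    rw [Real.norm_of_nonneg (pow_nonneg h2 _)]
    have h3 : Real.sqrt (m + 1) * a * (2 / PP x) * ‖Mo x‖ ^ (a - 1) ≤
        (2 * Real.sqrt (m + 1) * a) * (1 + ‖x‖ ^ 2)⁻¹ := by
      have e1 : (PP x)⁻¹ ≤ (1 + ‖x‖ ^ 2)⁻¹ := by
        apply inv_anti₀ (by positivity) hP1
      have e2 : 0 ≤ 2 * Real.sqrt (m + 1) * a := by
        have : 0 < a := by linarith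
        positivity
      calc Real.sqrt (m + 1) * a * (2 / PP x) * ‖Mo x‖ ^ (a - 1)
          = (2 * Real.sqrt (m + 1) * a) * ((PP x)⁻¹ * ‖Mo x‖ ^ (a - 1)) := by
            field_simp
        _ ≤ (2 * Real.sqrt (m + 1) * a) * ((1 + ‖x‖ ^ 2)⁻¹ * 1) := by
            refine mul_le_mul_of_nonneg_left ?_ e2
            exact mul_le_mul e1 h1 h0 (by positivity)
        _ = _ := by ring
    refine (pow_le_pow_left₀ h2 h3 _).trans (le_of_eq ?_)
    rw [mul_pow]
    congr 1
    have h4 : (-(2 * ((m : ℝ) + 1)) / 2) = -((m + 1 : ℕ) : ℝ) := by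
      push_cast
      ring
    rw [h4, Real.rpow_neg (by positivity), Real.rpow_natCast, inv_pow]
  · refine Eventually.of_forall fun y => ?_
    exact om_sq hE ((hbd m (bd y) (bd_mem_Um y)).2.2.2.2 (bd_last y)).1
  · intro Φ B σ hT
    have hWΦ := hT.diff
    have hR := hT.supp
    have hσ := hT.bdry
    unfold pair
    have hb0 : (a - 2) * ((a - 1) * m - 1 + ((m + 1 : ℕ) : ℝ)) + 2 * ((a - 1) * m - 1) = 0 := by
      push_cast
      nlinarith [ha]
    have key := weak_core (m := m) (d := d)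
      (F := fun c => Pi (K (S c) ((a - 1) * m - 1) (a - 2)))
      (τ := fun y c => om S a (bd y) c) (κ := fun y => -a * (1 / PP (bd y)) ^ m)
      (fun c => hpc m _ (hkd (m + 1) (S c) _ _ hp))
      (fun c x hx => hpi m _ (hkd (m + 1) (S c) _ _ hp)
        (hkdiv (m + 1) (S c) _ _ (hE.symm c) (hE.tr c) hp hb0) x (half_sub_Um m hx))
      (fun c y => by
        have h1 := (hbd m (bd y) (bd_mem_Um y)).2.2.2.2 (bd_last y)
        have h2 := h1.2 (K (S c) ((a - 1) * m - 1) (a - 2) (Mo (bd y)))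
        show ((1 / PP (bd y)) ^ m • Rf (bd y) (K (S c) ((a - 1) * m - 1) (a - 2) (Mo (bd y))))
          (Fin.last m) = _
        rw [PiLp.smul_apply, h2, smul_eq_mul]
        have h3 : inner ℝ (Mo (bd y)) (K (S c) ((a - 1) * m - 1) (a - 2) (Mo (bd y))) =
            a * om S a (bd y) c := by
          unfold K om
          rw [inner_add_right, inner_smul_right, inner_smul_right, inner_mv,
            real_inner_self_eq_norm_sq, h1.1]
          simp
          ring
        rw [h3]
        ring)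
      hWΦ hR hσ
    have e1 : ∀ x ∈ half m, hs (dom S a x) ^ (m - 1) * ∑ c, inner ℝ (dom S a x c) (B x c) =
        ((Real.sqrt (m + 1) * a) ^ (m - 1) * 2 ^ m) *
          ∑ c, inner ℝ (Pi (K (S c) ((a - 1) * m - 1) (a - 2)) x) (B x c) := by
      intro x hx
      rw [Finset.mul_sum, Finset.mul_sum]
      refine Finset.sum_congr rfl fun c _ => ?_
      have h1 := hs_smul_dom hE hbd hm ha1 ha (half_sub_Um m hx) c
      rw [← real_inner_smul_left, ← real_inner_smul_left, h1]
    constructor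
    · have h5 : IntegrableOn (fun x => ((Real.sqrt (m + 1) * a) ^ (m - 1) * 2 ^ m) *
          ∑ c, inner ℝ (Pi (K (S c) ((a - 1) * m - 1) (a - 2)) x) (B x c)) (half m) :=
        key.1.const_mul ((Real.sqrt (m + 1) * a) ^ (m - 1) * 2 ^ m)
      refine h5.congr_fun ?_ (isOpen_half m).measurableSet
      intro x hx
      exact (e1 x hx).symm
    · rw [setIntegral_congr_fun (isOpen_half m).measurableSet e1, integral_const_mul, key.2,
        mul_zero]

/-- the Moebius map is an involution -/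
theorem Mo_Mo {x : E (m + 1)} (hx : x ∈ Um m) : Mo (Mo x) = x := by
  have hP := PP_pos hx
  have h1 : Mo x + en m = (2 / PP x) • (x + en m) := by
    unfold Mo
    abel
  have h2 : PP (Mo x) = 4 / PP x := by
    have h3 : PP (Mo x) = ‖Mo x + en m‖ ^ 2 := rfl
    rw [h3, h1, norm_smul, mul_pow, Real.norm_eq_abs, sq_abs]
    have h4 : ‖x + en m‖ ^ 2 = PP x := rfl
    rw [h4]
    field_simp
    ring
  have h5 : Mo (Mo x) = (2 / PP (Mo x)) • (Mo x + en m) - en m := rfl
  rw [h5, h1, h2, smul_smul]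
  have h6 : 2 / (4 / PP x) * (2 / PP x) = 1 := by
    field_simp
    norm_num
  rw [h6, one_smul]
  abel

theorem Mo_mem_half {z : E (m + 1)} (hz : ‖z‖ < 1) : Mo z ∈ half m := by
  have h1 : |z (Fin.last m)| ≤ ‖z‖ := by
    have := PiLp.norm_apply_le z (Fin.last m)
    simpa [Real.norm_eq_abs] using this
  have h2 : -1 < z (Fin.last m) := by
    have := neg_abs_le (z (Fin.last m))
    linarith
  have hP := PP_pos (m := m) (x := z) h2
  have h3 : PP z = ‖z‖ ^ 2 + 2 * z (Fin.last m) + 1 := by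
    unfold PP en
    rw [norm_add_sq_real, EuclideanSpace.inner_single_right]
    simp
  show 0 < Mo z (Fin.last m)
  have h4 : Mo z (Fin.last m) = (2 / PP z) * (z (Fin.last m) + 1) - 1 := by
    unfold Mo
    simp [en]
    ring
  rw [h4]
  have h5 : ‖z‖ ^ 2 < 1 := by
    have := norm_nonneg z
    nlinarith
  have h6 : 1 < 2 / PP z * (z (Fin.last m) + 1) := by
    rw [div_mul_eq_mul_div, lt_div_iff₀ hP]
    rw [h3]
    linarith
  linarith

theorem not_conformal (hE : Eig (m + 1) d S) (hkc : StmtKcont) (hbd : StmtBdry) (hm : 1 ≤ m)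
    {a : ℝ} (ha1 : 1 < a) (ha : a ^ 2 * m = 2 * (m + 1)) : ¬ IsConformal m d (dom S a) := by
  intro hc
  have hcont : ∀ c, ContinuousOn (fun x => dom S a x c) (half m) := fun c =>
    (continuousOn_dom hkc ha1 c).mono (half_sub_Um m)
  have hcj : ∀ c (j : Fin (m + 1)), ContinuousOn (fun x => dom S a x c j) (half m) := fun c j =>
    (EuclideanSpace.proj (𝕜 := ℝ) j).continuous.comp_continuousOn (hcont c)
  have hhs : ContinuousOn (fun x => hs (dom S a x)) (half m) := by
    unfold hs
    refine Real.continuous_sqrt.comp_continuousOn ?_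
    exact continuousOn_finsetSum _ fun c _ => (hcont c).norm.pow 2
  -- conformal everywhere
  have hall : ∀ x ∈ half m, ∀ i j : Fin (m + 1),
      ∑ c, dom S a x c i * dom S a x c j = if i = j then hs (dom S a x) ^ 2 / (m + 1) else 0 := by
    intro x hx i j
    have h1 : (fun x => ∑ c, dom S a x c i * dom S a x c j) =ᵐ[volume.restrict (half m)]
        fun x => if i = j then hs (dom S a x) ^ 2 / (m + 1) else 0 := by
      rw [EventuallyEq, ae_restrict_iff' (isOpen_half m).measurableSet]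
      filter_upwards [hc] with z hz hzh
      exact hz hzh i j
    have h2 := Measure.eqOn_open_of_ae_eq h1 (isOpen_half m)
      (continuousOn_finsetSum _ fun c _ => (hcj c i).mul (hcj c j)) (by
        split_ifs
        · exact (hhs.pow 2).div_const _
        · exact continuousOn_const)
    exact h2 hx
  have hbil : ∀ x ∈ half m, ∀ h : E (m + 1),
      ∑ c, inner ℝ (dom S a x c) h ^ 2 = hs (dom S a x) ^ 2 / (m + 1) * ‖h‖ ^ 2 := by
    intro x hx h
    have h1 : ∀ c, inner ℝ (dom S a x c) h ^ 2 =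
        ∑ i, ∑ j, (h i * h j) * (dom S a x c i * dom S a x c j) := by
      intro c
      rw [PiLp.inner_apply, sq, Finset.sum_mul_sum]
      refine Finset.sum_congr rfl fun i _ => Finset.sum_congr rfl fun j _ => ?_
      simp
      ring
    simp_rw [h1]
    rw [Finset.sum_comm]
    have h2 : ∀ i, ∑ c, ∑ j, h i * h j * (dom S a x c i * dom S a x c j) =
        ∑ j, (h i * h j) * ∑ c, dom S a x c i * dom S a x c j := by
      intro i
      rw [Finset.sum_comm]
      refine Finset.sum_congr rfl fun j _ => ?_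
      rw [Finset.mul_sum]
    simp_rw [h2, hall x hx]
    simp only [mul_ite, mul_zero, Finset.sum_ite_eq, Finset.mem_univ, if_true]
    rw [EuclideanSpace.norm_sq_eq, Finset.mul_sum]
    refine Finset.sum_congr rfl fun i _ => ?_
    rw [Real.norm_eq_abs, sq_abs]
    ring
  obtain ⟨x0, v, hx0, hv, hxv, hne⟩ := hE.non
  set z : E (m + 1) := (1 / 2 : ℝ) • x0 with hz
  have hzn : ‖z‖ = 1 / 2 := by
    rw [hz, norm_smul, hx0]
    norm_num
  have hzU : z ∈ Um m := by
    have h1 : |z (Fin.last m)| ≤ ‖z‖ := by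
      have := PiLp.norm_apply_le z (Fin.last m)
      simpa [Real.norm_eq_abs] using this
    change (-1 : ℝ) < z (Fin.last m)
    have := neg_abs_le (z (Fin.last m))
    linarith
  have hx1 : Mo z ∈ half m := Mo_mem_half (by rw [hzn]; norm_num)
  set x1 := Mo z with hx1d
  have hx1U := half_sub_Um m hx1
  have hMx : Mo x1 = z := Mo_Mo hzU
  have hP := PP_pos hx1U
  obtain ⟨b1, b2, b3, -, -⟩ := hbd m x1 hx1U
  have key := hbil x1 hx1 (Rf x1 v)
  rw [b1 v, hv, hs_dom hE hbd ha1 ha hx1U, hMx, hzn] at key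
  have hin : ∀ c, inner ℝ (dom S a x1 c) (Rf x1 v) =
      (2 / PP x1) * ((1 / 2 : ℝ) ^ (a - 1) * (2 * inner ℝ v (mv (S c) x0))) := by
    intro c
    unfold dom
    rw [real_inner_smul_left, b2, b3, hMx]
    congr 1
    unfold K
    rw [inner_add_left, real_inner_smul_left z v, real_inner_smul_left (mv (S c) z) v]
    have h1 : inner ℝ z v = 0 := by
      rw [hz, real_inner_smul_left, hxv, mul_zero]
    have h2 : mv (S c) z = (1 / 2 : ℝ) • mv (S c) x0 := by
      ext i
      rw [hz]
      simp only [mv, PiLp.smul_apply, smul_eq_mul]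
      rw [Finset.mul_sum]
      refine Finset.sum_congr rfl fun j _ => ?_
      ring
    rw [h1, h2, real_inner_smul_left, hzn, real_inner_comm]
    have h3 : a - 1 = (a - 2) + 1 := by ring
    rw [h3, Real.rpow_add (by norm_num), Real.rpow_one]
    ring
  simp_rw [hin, mul_pow] at key
  rw [← Finset.mul_sum, ← Finset.mul_sum] at key
  have hc0 : (1 / 2 : ℝ) ^ (a - 1) ≠ 0 := by positivity
  have hm0 : (0 : ℝ) < m := by exact_mod_cast hm
  have hsq : Real.sqrt ((m : ℝ) + 1) ^ 2 = m + 1 := Real.sq_sqrt (by positivity)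
  rw [hsq] at key
  apply hne
  have hm1 : (m : ℝ) + 1 ≠ 0 := by positivity
  have h7 : (2 / PP x1) ≠ 0 := by positivity
  have h8 : ∑ c, 2 ^ 2 * inner ℝ v (mv (S c) x0) ^ 2 = a ^ 2 := by
    have h9 : (2 / PP x1) ^ 2 * (((1 / 2 : ℝ) ^ (a - 1)) ^ 2 *
        ∑ c, 2 ^ 2 * inner ℝ v (mv (S c) x0) ^ 2) =
        (2 / PP x1) ^ 2 * (((1 / 2 : ℝ) ^ (a - 1)) ^ 2 * a ^ 2) := by
      rw [key]
      field_simp
    have h10 := mul_left_cancel₀ (pow_ne_zero 2 h7) h9
    exact mul_left_cancel₀ (pow_ne_zero 2 hc0) h10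
  simp_rw [mul_pow]
  rw [h8]
  push_cast
  have h11 : (m : ℝ) + 1 - 1 = m := by ring
  rw [h11, eq_div_iff hm0.ne']
  linarith

end Pool.Agent.T6.H20.BU
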